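import Mathlib

set_option autoImplicit false

/-! The final estimate. -/

namespace Pool.Agent.Helper226_Obs

open Filter Real

theorem log_bound {n m a b k T M R : ℕ} (hn2 : 2 ≤ n) (hM : 4 ≤ M) (hR : 1 ≤ R)
    (hm : m = M * n) (ha : a ≤ 3 * n + M) (hb : b = 2 * n + 4 * R * a) (hnM : M ≤ n)
    (hT1 : 1 ≤ T) (hT : (T : ℝ) ≤ 2 * (n : ℝ) ^ ((1 : ℝ) / R))
    (h : ((n : ℝ) ^ 2 / 16) ^ m ≤ (m.factorial : ℝ) * ((k : ℝ) *
      (((n : ℝ) + 1) ^ n * ((n : ℝ) ^ 2) ^ b * ((T : ℝ) ^ 2) ^ m * ((n : ℝ) ^ 2 + 1) ^ a))) :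
    0 < k ∧ (m : ℝ) * ((1 - (32 * R + 18) / M - 2 / R) * Real.log n -
      (Real.log 16 + Real.log M + 2 * Real.log 2)) ≤ Real.log k := by
  have hn0 : (0 : ℝ) < n := by exact_mod_cast (by omega : 0 < n)
  have hn1 : (2 : ℝ) ≤ n := by exact_mod_cast hn2
  have hm0 : 0 < m := by rw [hm]; positivity
  have hT0 : (0 : ℝ) < T := by exact_mod_cast hT1
  have hR0 : (0 : ℝ) < R := by exact_mod_cast hR
  have hM0 : (0 : ℝ) < M := by exact_mod_cast (by omega : 0 < M)
  have hmr : (m : ℝ) = M * n := by rw [hm]; push_cast; ring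
  have hm0r : (0 : ℝ) < m := by exact_mod_cast hm0
  have hlhs : (0 : ℝ) < ((n : ℝ) ^ 2 / 16) ^ m := by positivity
  have hk : 0 < k := by
    rcases Nat.eq_zero_or_pos k with h0 | h0
    · subst h0
      simp at h
      linarith
    · exact h0
  refine ⟨hk, ?_⟩
  have hk0 : (0 : ℝ) < k := by exact_mod_cast hk
  have hfac : (m.factorial : ℝ) ≤ (m : ℝ) ^ m := by exact_mod_cast Nat.factorial_le_pow m
  have h2 : ((n : ℝ) ^ 2 / 16) ^ m ≤ (m : ℝ) ^ m * ((k : ℝ) *
      (((n : ℝ) + 1) ^ n * ((n : ℝ) ^ 2) ^ b * ((T : ℝ) ^ 2) ^ m * ((n : ℝ) ^ 2 + 1) ^ a)) := by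
    refine h.trans (mul_le_mul_of_nonneg_right hfac (by positivity))
  have h3 := Real.log_le_log hlhs h2
  have hl1 : Real.log (((n : ℝ) ^ 2 / 16) ^ m) = m * (2 * Real.log n - Real.log 16) := by
    rw [Real.log_pow, Real.log_div (by positivity) (by norm_num), Real.log_pow]
    push_cast; ring
  have hl2 : Real.log ((m : ℝ) ^ m * ((k : ℝ) *
      (((n : ℝ) + 1) ^ n * ((n : ℝ) ^ 2) ^ b * ((T : ℝ) ^ 2) ^ m * ((n : ℝ) ^ 2 + 1) ^ a))) =
      m * Real.log m + (Real.log k + (n * Real.log (n + 1) + b * (2 * Real.log n) +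
        m * (2 * Real.log T) + a * Real.log ((n : ℝ) ^ 2 + 1))) := by
    rw [Real.log_mul (by positivity) (by positivity), Real.log_mul (by positivity) (by positivity),
      Real.log_mul (by positivity) (by positivity), Real.log_mul (by positivity) (by positivity),
      Real.log_mul (by positivity) (by positivity), Real.log_pow, Real.log_pow, Real.log_pow,
      Real.log_pow, Real.log_pow, Real.log_pow, Real.log_pow]
    push_cast; ring
  rw [hl1, hl2] at h3
  set l := Real.log n with hl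
  have hl0 : 0 < l := Real.log_pos (by linarith)
  have hlm : Real.log m = Real.log M + l := by
    rw [hmr, Real.log_mul (by positivity) (by positivity)]
  have hln1 : Real.log ((n : ℝ) + 1) ≤ 2 * l := by
    have : Real.log ((n : ℝ) + 1) ≤ Real.log ((n : ℝ) ^ 2) := by
      apply Real.log_le_log (by positivity)
      nlinarith
    rw [Real.log_pow] at this
    push_cast at this
    linarith
  have hln2 : Real.log ((n : ℝ) ^ 2 + 1) ≤ 3 * l := by
    have : Real.log ((n : ℝ) ^ 2 + 1) ≤ Real.log ((n : ℝ) ^ 3) := by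
      apply Real.log_le_log (by positivity)
      nlinarith [sq_nonneg ((n : ℝ) - 2), sq_nonneg (n : ℝ)]
    rw [Real.log_pow] at this
    push_cast at this
    linarith
  have hlT : Real.log T ≤ Real.log 2 + l / R := by
    have := Real.log_le_log hT0 hT
    rw [Real.log_mul (by norm_num) (by positivity), Real.log_rpow hn0] at this
    calc Real.log T ≤ Real.log 2 + 1 / R * Real.log n := this
      _ = Real.log 2 + l / R := by rw [← hl]; ring
  rw [hlm] at h3
  have har : (a : ℝ) ≤ 3 * n + M := by exact_mod_cast ha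
  have har4 : (a : ℝ) * M ≤ 4 * m := by
    have hnMr : (M : ℝ) ≤ n := by exact_mod_cast hnM
    rw [hmr]
    nlinarith
  have hbr : (b : ℝ) = 2 * n + 4 * R * a := by rw [hb]; push_cast; ring
  have ha' : (a : ℝ) ≤ 4 * m / M := by
    rw [le_div_iff₀ hM0]; exact har4
  have hn' : (n : ℝ) = m / M := by rw [hmr]; field_simp
  -- combine
  have e1 : (n : ℝ) * Real.log (n + 1) ≤ (m / M) * (2 * l) := by
    rw [← hn']
    exact mul_le_mul_of_nonneg_left hln1 hn0.le
  have e2 : (b : ℝ) * (2 * l) ≤ (2 * (m / M) + 4 * R * (4 * m / M)) * (2 * l) := by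
    rw [hbr]
    apply mul_le_mul_of_nonneg_right _ (by positivity)
    have : 4 * (R : ℝ) * a ≤ 4 * R * (4 * m / M) := mul_le_mul_of_nonneg_left ha' (by positivity)
    rw [← hn'] at *
    linarith
  have e3 : (m : ℝ) * (2 * Real.log T) ≤ m * (2 * (Real.log 2 + l / R)) := by
    apply mul_le_mul_of_nonneg_left _ hm0r.le
    linarith
  have e4 : (a : ℝ) * Real.log ((n : ℝ) ^ 2 + 1) ≤ (4 * m / M) * (3 * l) := by
    apply mul_le_mul ha' hln2 (Real.log_nonneg (by nlinarith)) (by positivity)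
  have key : (m : ℝ) * ((1 - (32 * R + 18) / M - 2 / R) * l -
      (Real.log 16 + Real.log M + 2 * Real.log 2)) =
      m * (2 * l - Real.log 16) - m * (Real.log M + l) - ((m / M) * (2 * l) +
        (2 * (m / M) + 4 * R * (4 * m / M)) * (2 * l) + m * (2 * (Real.log 2 + l / R)) +
        (4 * m / M) * (3 * l)) := by
    generalize Real.log 16 = A16
    generalize Real.log (M : ℝ) = AM
    generalize Real.log 2 = A2
    simp only [div_eq_mul_inv]
    ring
  rw [key]
  have hsum := add_le_add (add_le_add (add_le_add e1 e2) e3) e4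
  have h5 : (m : ℝ) * (2 * l - Real.log 16) - m * (Real.log M + l) -
      (n * Real.log (n + 1) + b * (2 * l) + m * (2 * Real.log T) +
        a * Real.log ((n : ℝ) ^ 2 + 1)) ≤ Real.log k := by linarith
  refine le_trans (sub_le_sub_left hsum _) h5

/-- The parameters. -/
theorem params (ε : ℝ) (hε : 0 < ε) (hε1 : ε ≤ 1) : ∃ R M : ℕ, 1 ≤ R ∧ 4 ≤ M ∧
    ∀ N₀ : ℕ, ∃ g₀ : ℕ, ∀ g : ℕ, g₀ ≤ g → ∀ n : ℕ, n = 2 * g / (M - 3) + 1 →
      N₀ ≤ n ∧ 2 * g ≤ M * n ∧ 2 * g < (M - 3) * n ∧ M * n - 2 * g ≤ 3 * n + M ∧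
      ∀ k T : ℕ, 1 ≤ T → (T : ℝ) ≤ 2 * (n : ℝ) ^ ((1 : ℝ) / R) →
        ((n : ℝ) ^ 2 / 16) ^ (M * n) ≤ ((M * n).factorial : ℝ) * ((k : ℝ) *
          (((n : ℝ) + 1) ^ n * ((n : ℝ) ^ 2) ^ (2 * n + 4 * R * (M * n - 2 * g)) *
            ((T : ℝ) ^ 2) ^ (M * n) * ((n : ℝ) ^ 2 + 1) ^ (M * n - 2 * g))) →
        (g : ℝ) ^ ((2 - ε) * g) ≤ k := by
  obtain ⟨R, hR⟩ := exists_nat_ge (16 / ε)
  have hR16 : (16 : ℝ) ≤ R := by
    refine le_trans ?_ hR
    rw [le_div_iff₀ hε]; linarith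
  have hR0 : (0 : ℝ) < R := by linarith
  have hR1 : 1 ≤ R := by
    have : (1 : ℝ) ≤ R := by linarith
    exact_mod_cast this
  obtain ⟨M, hM⟩ := exists_nat_ge ((32 * (R : ℝ) + 18) * 8 / ε)
  have hM4 : (4 : ℝ) ≤ M := by
    refine le_trans ?_ hM
    rw [le_div_iff₀ hε]; nlinarith
  have hM4' : 4 ≤ M := by exact_mod_cast hM4
  have hM0 : (0 : ℝ) < M := by linarith
  have c1 : 2 / (R : ℝ) ≤ ε / 8 := by
    rw [div_le_div_iff₀ hR0 (by norm_num)]
    rw [div_le_iff₀ hε] at hR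
    linarith
  have c2 : (32 * (R : ℝ) + 18) / M ≤ ε / 8 := by
    rw [div_le_div_iff₀ hM0 (by norm_num)]
    rw [div_le_iff₀ hε] at hM
    linarith
  refine ⟨R, M, hR1, hM4', fun N₀ => ?_⟩
  set C := Real.log 16 + Real.log M + 2 * Real.log 2 with hC
  have hC0 : 0 ≤ C := by
    have h1 : 0 ≤ Real.log 16 := Real.log_nonneg (by norm_num)
    have h2 : 0 ≤ Real.log M := Real.log_nonneg (by linarith)
    have h3 : 0 ≤ Real.log 2 := Real.log_nonneg (by norm_num)
    positivity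
  have hlogtop : Tendsto (fun g : ℕ => Real.log (g : ℝ)) atTop atTop :=
    Real.tendsto_log_atTop.comp tendsto_natCast_atTop_atTop
  obtain ⟨g₁, hg₁⟩ := eventually_atTop.mp (hlogtop.eventually_ge_atTop
    (Real.log M + 8 * C / ε + 8 * Real.log M / ε))
  refine ⟨max (max g₁ 2) (M * (N₀ + M + 2)), fun g hg n hn => ?_⟩
  have hgg1 : g₁ ≤ g := le_trans (le_trans (le_max_left _ _) (le_max_left _ _)) hg
  have hg2 : 2 ≤ g := le_trans (le_trans (le_max_right _ _) (le_max_left _ _)) hg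
  have hgN : M * (N₀ + M + 2) ≤ g := le_trans (le_max_right _ _) hg
  have hM3 : 0 < M - 3 := by omega
  have hdm := Nat.div_add_mod (2 * g) (M - 3)
  have hml := Nat.mod_lt (2 * g) hM3
  set q := 2 * g / (M - 3) with hq
  have hlt : 2 * g < (M - 3) * n := by
    rw [hn, Nat.mul_add, Nat.mul_one]; omega
  have hle : (M - 3) * (n - 1) ≤ 2 * g := by
    rw [hn, Nat.add_sub_cancel]; omega
  have hMn : (M - 3) * n ≤ M * n := Nat.mul_le_mul_right _ (by omega)
  have hnbig : N₀ + M + 2 ≤ n := by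
    by_contra hcon
    push Not at hcon
    have h1 : (M - 3) * n ≤ M * (N₀ + M + 2) := Nat.mul_le_mul (by omega) hcon.le
    omega
  have ha : M * n - 2 * g ≤ 3 * n + M := by
    have h1 : (M - 3) * (n - 1) + (M - 3) = (M - 3) * n := by
      rw [← Nat.mul_succ]; congr 1; omega
    have h2 : M * n = (M - 3) * n + 3 * n := by
      rw [← Nat.add_mul]; congr 1; omega
    omega
  refine ⟨by omega, by omega, hlt, ha, ?_⟩
  intro k T hT1 hT h
  obtain ⟨hk, hkey⟩ := log_bound (n := n) (m := M * n) (a := M * n - 2 * g)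
    (b := 2 * n + 4 * R * (M * n - 2 * g)) (k := k) (T := T) (M := M) (R := R)
    (by omega) hM4' hR1 rfl ha rfl (by omega) hT1 hT h
  have hk0 : (0 : ℝ) < k := by exact_mod_cast hk
  have hg0 : (0 : ℝ) < g := by exact_mod_cast (by omega : 0 < g)
  have hg1 : (1 : ℝ) ≤ g := by exact_mod_cast (by omega : 1 ≤ g)
  have hlogg := hg₁ g hgg1
  have hn0 : (0 : ℝ) < n := by exact_mod_cast (by omega : 0 < n)
  have hlogn : Real.log g - Real.log M ≤ Real.log n := by
    rw [← Real.log_div hg0.ne' hM0.ne']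
    apply Real.log_le_log (by positivity)
    rw [div_le_iff₀ hM0]
    have : g ≤ n * M := by
      rw [Nat.mul_comm]; omega
    exact_mod_cast this
  have hlM : 0 ≤ Real.log M := Real.log_nonneg (by linarith)
  have hlg0 : 0 ≤ Real.log g := Real.log_nonneg hg1
  have hCn : C ≤ ε / 8 * Real.log n := by
    have h1 : 8 * C / ε ≤ Real.log n := by
      have : 0 ≤ 8 * Real.log M / ε := by positivity
      linarith
    calc C = ε / 8 * (8 * C / ε) := by field_simp
      _ ≤ ε / 8 * Real.log n := mul_le_mul_of_nonneg_left h1 (by positivity)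
  have hMg : Real.log M ≤ ε / 8 * Real.log g := by
    have h1 : 8 * Real.log M / ε ≤ Real.log g := by
      have : 0 ≤ 8 * C / ε := by positivity
      linarith
    calc Real.log M = ε / 8 * (8 * Real.log M / ε) := by field_simp
      _ ≤ ε / 8 * Real.log g := mul_le_mul_of_nonneg_left h1 (by positivity)
  have hln0 : 0 ≤ Real.log n := Real.log_nonneg (by exact_mod_cast (by omega : 1 ≤ n))
  have s1 : (1 - 3 * ε / 8) * Real.log n ≤
      (1 - (32 * R + 18) / M - 2 / R) * Real.log n - C := by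
    have : (1 - ε / 8 - ε / 8) * Real.log n ≤ (1 - (32 * R + 18) / M - 2 / R) * Real.log n :=
      mul_le_mul_of_nonneg_right (by linarith) hln0
    linarith
  have s2 : (1 - ε / 8) * Real.log g ≤ Real.log n := by linarith
  have s3 : (1 - ε / 2) * Real.log g ≤ (1 - 3 * ε / 8) * Real.log n := by
    have h1 : (1 - 3 * ε / 8) * ((1 - ε / 8) * Real.log g) ≤ (1 - 3 * ε / 8) * Real.log n :=
      mul_le_mul_of_nonneg_left s2 (by linarith)
    have h2 : (1 - ε / 2) * Real.log g ≤ (1 - 3 * ε / 8) * ((1 - ε / 8) * Real.log g) := by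
      have : (1 - ε / 2) ≤ (1 - 3 * ε / 8) * (1 - ε / 8) := by nlinarith [sq_nonneg ε]
      calc (1 - ε / 2) * Real.log g ≤ ((1 - 3 * ε / 8) * (1 - ε / 8)) * Real.log g :=
            mul_le_mul_of_nonneg_right this hlg0
        _ = _ := by ring
    linarith
  have hmg : (2 * g : ℝ) ≤ ((M * n : ℕ) : ℝ) := by
    have : 2 * g ≤ M * n := by omega
    exact_mod_cast this
  have s4 : (2 * g : ℝ) * ((1 - ε / 2) * Real.log g) ≤ Real.log k := by
    refine le_trans ?_ hkey
    apply mul_le_mul hmg (s3.trans s1) (mul_nonneg (by linarith) hlg0) (by positivity)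
  rw [← Real.log_le_log_iff (by positivity) hk0, Real.log_rpow hg0]
  calc (2 - ε) * g * Real.log g = (2 * g : ℝ) * ((1 - ε / 2) * Real.log g) := by ring
    _ ≤ Real.log k := s4

end Pool.Agent.Helper226_Obs
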