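import Mathlib

set_option autoImplicit false

/-!
Obstructions for embedding graphs in the closed orientable surface of genus `g`: rotation systems,
minors, the obstruction set and its size `N g`.
-/

namespace Pool.Agent.Helper226_Obs

open SimpleGraph

/-- The permutation of the darts (oriented edges) which reverses every dart. -/
def revPerm {V : Type} (G : SimpleGraph V) : Equiv.Perm G.Dart where
  toFun d := d.symm
  invFun d := d.symm
  left_inv d := d.symm_symm
  right_inv d := d.symm_symm

/-- A rotation system: a permutation of the darts whose cycles are exactly the sets of darts with a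
common initial vertex (a cyclic order of the edges at every vertex). -/
def IsRotation {V : Type} (G : SimpleGraph V) (σ : Equiv.Perm G.Dart) : Prop :=
  (∀ d, (σ d).fst = d.fst) ∧ ∀ d d' : G.Dart, d.fst = d'.fst → σ.SameCycle d d'

/-- The face permutation of a rotation system: traverse a dart, then turn to the next dart at its
head. -/
def facePerm {V : Type} (G : SimpleGraph V) (σ : Equiv.Perm G.Dart) : Equiv.Perm G.Dart :=
  σ * revPerm G

/-- The facial walks: the orbits of the face permutation. -/
abbrev Face {V : Type} (G : SimpleGraph V) (σ : Equiv.Perm G.Dart) : Type :=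
  Quotient (Equiv.Perm.SameCycle.setoid (facePerm G σ))

/-- The number of faces: the facial walks, and one face for every isolated vertex. -/
noncomputable def numFaces {V : Type} (G : SimpleGraph V) (σ : Equiv.Perm G.Dart) : ℕ :=
  Nat.card (Face G σ) + Nat.card {v : V // ∀ w, ¬ G.Adj v w}

/-- `G` is embeddable in the closed orientable surface of genus `g`: for some rotation system the
sum of the genera of the components is at most `g`, that is, `v - e + f ≥ 2 c - 2 g` (Euler's
formula), `c` being the number of components. -/
def Embeds {V : Type} (G : SimpleGraph V) (g : ℕ) : Prop :=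
  ∃ σ : Equiv.Perm G.Dart, IsRotation G σ ∧
    Nat.card G.edgeSet + 2 * Nat.card G.ConnectedComponent ≤ Nat.card V + numFaces G σ + 2 * g

/-- `H` is a minor of `G`: there are pairwise disjoint connected branch sets, one for each vertex of
`H`, with an edge of `G` between any two branch sets belonging to adjacent vertices of `H`. -/
def IsMinor {W V : Type} (H : SimpleGraph W) (G : SimpleGraph V) : Prop :=
  ∃ B : W → Set V, (∀ x, (G.induce (B x)).Connected) ∧
    (∀ x y, x ≠ y → Disjoint (B x) (B y)) ∧
    ∀ x y, H.Adj x y → ∃ u ∈ B x, ∃ v ∈ B y, G.Adj u v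

/-- Finite simple graphs, with vertex set `{0, …, n - 1}`. -/
abbrev FinGraph : Type := Σ n : ℕ, SimpleGraph (Fin n)

/-- Isomorphism of finite graphs. -/
instance isoSetoid : Setoid FinGraph where
  r G H := Nonempty (G.2 ≃g H.2)
  iseqv := ⟨fun _ => ⟨SimpleGraph.Iso.refl⟩, fun ⟨e⟩ => ⟨e.symm⟩, fun ⟨e⟩ ⟨f⟩ => ⟨f.comp e⟩⟩

/-- `G` is an obstruction for genus `g`: it is not embeddable in the orientable surface of genus
`g`, but all its proper minors are. -/
def IsObs (g : ℕ) (G : FinGraph) : Prop :=
  ¬ Embeds G.2 g ∧ ∀ H : FinGraph, IsMinor H.2 G.2 → IsEmpty (H.2 ≃g G.2) → Embeds H.2 g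

/-- The obstruction set: the isomorphism classes of obstructions for genus `g`. -/
def ObsSet (g : ℕ) : Set (Quotient isoSetoid) :=
  {c | ∃ G : FinGraph, IsObs g G ∧ Quotient.mk isoSetoid G = c}

/-- The number of obstructions for genus `g`. -/
noncomputable def N (g : ℕ) : ℕ∞ := (ObsSet g).encard

end Pool.Agent.Helper226_Obs
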