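import Pool.Agent.Helper226_Obs.Defs

set_option autoImplicit false

namespace Pool.Agent.Helper226_Obs

open SimpleGraph


/-! ### transitivity of the minor relation -/

lemma exists_obs_trans {U W V : Type} {K : SimpleGraph U} {H : SimpleGraph W} {G : SimpleGraph V}
    (h1 : IsMinor K H) (h2 : IsMinor H G) : IsMinor K G := by
  obtain ⟨B', hc', hd', he'⟩ := h1
  obtain ⟨B, hc, hd, he⟩ := h2
  refine ⟨fun y => ⋃ x ∈ B' y, B x, ?_, ?_, ?_⟩
  · intro y
    have hmem : ∀ {x : W}, x ∈ B' y → ∀ {u : V}, u ∈ B x → u ∈ ⋃ x ∈ B' y, B x := by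
      intro x hx u hu
      exact Set.mem_biUnion hx hu
    have hin : ∀ (x : W) (hx : x ∈ B' y) (u v : V) (hu : u ∈ B x) (hv : v ∈ B x),
        (G.induce (⋃ x ∈ B' y, B x)).Reachable ⟨u, hmem hx hu⟩ ⟨v, hmem hx hv⟩ := by
      intro x hx u v hu hv
      have h3 := (hc x).preconnected ⟨u, hu⟩ ⟨v, hv⟩
      have h4 : B x ⊆ ⋃ x ∈ B' y, B x := fun w hw => hmem hx hw
      exact h3.map (G.induceHomOfLE h4).toHom
    have hwalk : ∀ (x x' : B' y), (H.induce (B' y)).Walk x x' → ∀ (u v : V) (hu : u ∈ B x.1)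
        (hv : v ∈ B x'.1), (G.induce (⋃ x ∈ B' y, B x)).Reachable ⟨u, hmem x.2 hu⟩
          ⟨v, hmem x'.2 hv⟩ := by
      intro x x' p
      induction p with
      | @nil a => intro u v hu hv; exact hin a.1 a.2 u v hu hv
      | @cons a b c hab p ih =>
        intro u v hu hv
        have hab' : H.Adj a.1 b.1 := hab
        obtain ⟨s, hs, t, ht, hst⟩ := he _ _ hab'
        have h5 := hin a.1 a.2 u s hu hs
        have h6 := ih t v ht hv
        have h7 : (G.induce (⋃ x ∈ B' y, B x)).Adj ⟨s, hmem a.2 hs⟩ ⟨t, hmem b.2 ht⟩ := hst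
        exact h5.trans (h7.reachable.trans h6)
    obtain ⟨x0⟩ := (hc' y).nonempty
    obtain ⟨u0⟩ := (hc x0.1).nonempty
    have hne : Nonempty ↥(⋃ x ∈ B' y, B x) := ⟨⟨u0.1, hmem x0.2 u0.2⟩⟩
    refine ⟨fun a b => ?_⟩
    obtain ⟨a, ha⟩ := a
    obtain ⟨b, hb⟩ := b
    obtain ⟨x, hx, hax⟩ := Set.mem_iUnion₂.1 ha
    obtain ⟨x', hx', hbx⟩ := Set.mem_iUnion₂.1 hb
    obtain ⟨p⟩ := (hc' y).preconnected ⟨x, hx⟩ ⟨x', hx'⟩
    exact hwalk _ _ p a b hax hbx
  · intro y z hyz
    rw [Set.disjoint_left]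
    intro u hu hv
    obtain ⟨x, hx, hux⟩ := Set.mem_iUnion₂.1 hu
    obtain ⟨x', hx', hux'⟩ := Set.mem_iUnion₂.1 hv
    by_cases h : x = x'
    · subst h
      exact Set.disjoint_left.1 (hd' y z hyz) hx hx'
    · exact Set.disjoint_left.1 (hd x x' h) hux hux'
  · intro y z hyz
    obtain ⟨x, hx, x', hx', hxx⟩ := he' y z hyz
    obtain ⟨u, hu, v, hv, huv⟩ := he x x' hxx
    exact ⟨u, Set.mem_biUnion hx hu, v, Set.mem_biUnion hx' hv, huv⟩

lemma exists_obs_of_iso {W V : Type} {H : SimpleGraph W} {G : SimpleGraph V} (e : H ≃g G) :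
    IsMinor H G := by
  refine ⟨fun x => {e x}, ?_, ?_, ?_⟩
  · intro x
    have : Nonempty ↥({e x} : Set V) := ⟨⟨e x, rfl⟩⟩
    refine ⟨fun a b => ?_⟩
    have : a = b := Subtype.ext (a.2.trans b.2.symm)
    subst this
    exact Reachable.refl _
  · intro x y hxy
    rw [Set.disjoint_singleton]
    exact fun h => hxy (e.injective h)
  · intro x y hxy
    exact ⟨e x, rfl, e y, rfl, e.map_adj_iff.2 hxy⟩

/-! ### invariance of embeddability -/

/-- The bijection of the darts given by an isomorphism. -/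
def exists_obs_dart {W V : Type} {H : SimpleGraph W} {G : SimpleGraph V} (e : H ≃g G) :
    H.Dart ≃ G.Dart where
  toFun d := ⟨(e d.fst, e d.snd), e.map_adj_iff.2 d.adj⟩
  invFun d := ⟨(e.symm d.fst, e.symm d.snd), e.symm.map_adj_iff.2 d.adj⟩
  left_inv d := by
    ext <;> simp
  right_inv d := by
    ext <;> simp

lemma exists_obs_sameCycle {α β : Type} (e : α ≃ β) (p : Equiv.Perm α) (x y : β) :
    (e.permCongr p).SameCycle x y ↔ p.SameCycle (e.symm x) (e.symm y) := by
  have h : ∀ n : ℤ, (e.permCongr p) ^ n = e.permCongr (p ^ n) := fun n =>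
    (map_zpow e.permCongrHom p n).symm
  unfold Equiv.Perm.SameCycle
  refine exists_congr fun n => ?_
  rw [h, Equiv.permCongr_apply]
  exact e.eq_symm_apply.symm

lemma exists_obs_embeds {W V : Type} {H : SimpleGraph W} {G : SimpleGraph V} (e : H ≃g G) {g : ℕ}
    (h : Embeds H g) : Embeds G g := by
  obtain ⟨σ, ⟨hσ1, hσ2⟩, hσ3⟩ := h
  set D := exists_obs_dart e with hD
  have hface : facePerm G (D.permCongr σ) = D.permCongr (facePerm H σ) := by
    unfold facePerm
    rw [Equiv.permCongr_mul]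
    congr 1
    refine Equiv.ext fun d => ?_
    rw [Equiv.permCongr_apply]
    refine Dart.ext _ _ ?_
    change (d.snd, d.fst) = (e (e.symm d.snd), e (e.symm d.fst))
    simp
  refine ⟨D.permCongr σ, ⟨?_, ?_⟩, ?_⟩
  · intro d
    rw [Equiv.permCongr_apply]
    change e (σ (D.symm d)).fst = d.fst
    rw [hσ1]
    change e (e.symm d.fst) = d.fst
    simp
  · intro d d' hdd
    rw [exists_obs_sameCycle]
    refine hσ2 _ _ ?_
    change e.symm d.fst = e.symm d'.fst
    rw [hdd]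
  · have h1 : Nat.card (Face G (D.permCongr σ)) = Nat.card (Face H σ) := by
      symm
      refine Nat.card_congr (Quotient.congr D ?_)
      intro a b
      change (facePerm H σ).SameCycle a b ↔ (facePerm G (D.permCongr σ)).SameCycle (D a) (D b)
      rw [hface, exists_obs_sameCycle, Equiv.symm_apply_apply, Equiv.symm_apply_apply]
    have h2 : Nat.card {v : V // ∀ w, ¬ G.Adj v w} = Nat.card {v : W // ∀ w, ¬ H.Adj v w} := by
      symm
      refine Nat.card_congr (e.toEquiv.subtypeEquiv ?_)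
      intro v
      constructor
      · intro h w hw
        refine h (e.symm w) ?_
        have : G.Adj (e v) (e (e.symm w)) := by simpa using hw
        exact e.map_adj_iff.1 this
      · intro h w hw
        exact h (e w) (e.map_adj_iff.2 hw)
    have h3 : Nat.card G.edgeSet = Nat.card H.edgeSet := (Nat.card_congr e.mapEdgeSet).symm
    have h4 : Nat.card G.ConnectedComponent = Nat.card H.ConnectedComponent :=
      (Nat.card_congr e.connectedComponentEquiv).symm
    have h5 : Nat.card V = Nat.card W := (Nat.card_congr e.toEquiv).symm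
    unfold numFaces at hσ3 ⊢
    rw [h1, h2, h3, h4, h5]
    exact hσ3

/-! ### minors and sizes -/

lemma exists_obs_le {n' n : ℕ} {H' : SimpleGraph (Fin n')} {H : SimpleGraph (Fin n)}
    (h : IsMinor H' H) : n' ≤ n ∧ Nat.card H'.edgeSet ≤ Nat.card H.edgeSet ∧
      (n' = n → Nat.card H'.edgeSet = Nat.card H.edgeSet → Nonempty (H' ≃g H)) := by
  classical
  obtain ⟨B, hc, hd, he⟩ := h
  have hb : ∀ y, ∃ b, b ∈ B y := fun y => by
    obtain ⟨b⟩ := (hc y).nonempty
    exact ⟨b.1, b.2⟩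
  choose b hb using hb
  have huniq : ∀ {u : Fin n} {x y : Fin n'}, u ∈ B x → u ∈ B y → x = y := by
    intro u x y hx hy
    by_contra hne
    exact Set.disjoint_left.1 (hd x y hne) hx hy
  have hbinj : Function.Injective b := fun x y hxy => huniq (hb x) (hxy ▸ hb y)
  have hn : n' ≤ n := by simpa using Fintype.card_le_of_injective b hbinj
  have hedge : ∀ e : H'.edgeSet, ∃ f : H.edgeSet, ∃ x y u v, e.1 = s(x, y) ∧ f.1 = s(u, v) ∧
      u ∈ B x ∧ v ∈ B y := by
    rintro ⟨e, hee⟩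
    induction e with
    | _ x y =>
      obtain ⟨u, hu, v, hv, huv⟩ := he x y hee
      exact ⟨⟨s(u, v), huv⟩, x, y, u, v, rfl, rfl, hu, hv⟩
  choose F hF using hedge
  have hFinj : Function.Injective F := by
    intro e e' hee
    obtain ⟨x, y, u, v, h1, h2, h3, h4⟩ := hF e
    obtain ⟨x', y', u', v', h1', h2', h3', h4'⟩ := hF e'
    rw [hee, h2'] at h2
    refine Subtype.ext ?_
    rw [h1, h1']
    rcases Sym2.eq_iff.1 h2 with ⟨h5, h6⟩ | ⟨h5, h6⟩
    · subst h5 h6
      rw [huniq h3 h3', huniq h4 h4']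
    · subst h5 h6
      rw [huniq h3 h4', huniq h4 h3']
      exact Sym2.eq_swap
  refine ⟨hn, Nat.card_le_card_of_injective F hFinj, ?_⟩
  intro hnn hcc
  subst hnn
  have hbbij : Function.Bijective b := (Fintype.bijective_iff_injective_and_card b).2 ⟨hbinj, rfl⟩
  have hsing : ∀ {u : Fin n'} {y : Fin n'}, u ∈ B y → u = b y := by
    intro u y hu
    obtain ⟨z, rfl⟩ := hbbij.2 u
    rw [huniq hu (hb z)]
  have hFbij : Function.Bijective F := by
    have : Nat.card H'.edgeSet = Nat.card H.edgeSet := hcc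
    exact (Nat.bijective_iff_injective_and_card F).2 ⟨hFinj, this⟩
  refine ⟨⟨Equiv.ofBijective b hbbij, ?_⟩⟩
  intro x y
  change H.Adj (b x) (b y) ↔ H'.Adj x y
  constructor
  · intro hxy
    obtain ⟨e, hee⟩ := hFbij.2 ⟨s(b x, b y), hxy⟩
    obtain ⟨x', y', u, v, h1, h2, h3, h4⟩ := hF e
    rw [hee] at h2
    have h5 := e.2
    rw [h1] at h5
    rw [hsing h3, hsing h4] at h2
    rcases Sym2.eq_iff.1 h2 with ⟨h6, h7⟩ | ⟨h6, h7⟩
    · rw [hbinj h6, hbinj h7]
      exact h5
    · rw [hbinj h6, hbinj h7]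
      exact SimpleGraph.Adj.symm h5
  · intro hxy
    obtain ⟨u, hu, v, hv, huv⟩ := he x y hxy
    rwa [← hsing hu, ← hsing hv]

theorem exists_obs {V : Type} [Finite V] (G : SimpleGraph V) (g : ℕ) (h : ¬ Embeds G g) :
    ∃ H : FinGraph, IsObs g H ∧ IsMinor H.2 G := by
  classical
  let e : V ≃ Fin (Nat.card V) := Finite.equivFin V
  let G0 : SimpleGraph (Fin (Nat.card V)) := G.map e.toEmbedding
  let i : G ≃g G0 := SimpleGraph.Iso.map e G
  have hne : {H : FinGraph | IsMinor H.2 G ∧ ¬ Embeds H.2 g}.Nonempty :=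
    ⟨⟨Nat.card V, G0⟩, exists_obs_of_iso i.symm, fun h' => h (exists_obs_embeds i.symm h')⟩
  obtain ⟨H, ⟨hH1, hH2⟩, hmin⟩ := (measure fun H : FinGraph =>
    H.1 + Nat.card H.2.edgeSet).wf.has_min _ hne
  refine ⟨H, ⟨hH2, ?_⟩, hH1⟩
  intro H' hm hiso
  by_contra hemb
  have h1 := hmin H' ⟨exists_obs_trans hm hH1, hemb⟩
  change ¬ (H'.1 + Nat.card H'.2.edgeSet < H.1 + Nat.card H.2.edgeSet) at h1
  obtain ⟨h2, h3, h4⟩ := exists_obs_le hm
  obtain ⟨j⟩ := h4 (by omega) (by omega)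
  exact hiso.false j

end Pool.Agent.Helper226_Obs
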