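import Pool.Agent.Helper226_Obs.Defs

set_option autoImplicit false

namespace Pool.Agent.Helper226_Obs

open SimpleGraph

/-! ### auxiliary lemmas for the girth obstruction -/

section girthaux

open Classical

variable {V : Type} (G : SimpleGraph V) (σ : Equiv.Perm G.Dart)

/-- the face to the side of a dart -/
noncomputable def gi_face (d : G.Dart) : Face G σ := Quotient.mk _ d

theorem gi_face_symm (d : G.Dart) : gi_face G σ d.symm = gi_face G σ (σ d) := by
  apply Quotient.sound
  show (facePerm G σ).SameCycle d.symm (σ d)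
  have h : σ d = facePerm G σ d.symm := by
    simp [facePerm, revPerm]
  rw [h]
  exact (Equiv.Perm.sameCycle_apply_right).mpr (Equiv.Perm.SameCycle.refl _ _)

theorem gi_face_surj (f : Face G σ) : ∃ d, gi_face G σ d = f := Quotient.exists_rep f

/-- the edges with exactly one dart on the face -/
def gi_B (f : Face G σ) : SimpleGraph V where
  Adj u v := ∃ h : G.Adj u v,
    ¬ (gi_face G σ ⟨(u, v), h⟩ = f ↔ gi_face G σ ⟨(v, u), h.symm⟩ = f)
  symm := ⟨fun _ _ ⟨h, hh⟩ => ⟨h.symm, fun hc => hh hc.symm⟩⟩
  loopless := ⟨fun _ ⟨h, _⟩ => G.irrefl h⟩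

theorem gi_B_le (f : Face G σ) : gi_B G σ f ≤ G := fun _ _ h => h.1

/-- a face which contains every dart of its component -/
def gi_Alone (f : Face G σ) : Prop :=
  ∀ d d' : G.Dart, gi_face G σ d = f → G.Reachable d.fst d'.fst → gi_face G σ d' = f

theorem gi_dart_finite [Finite V] : Finite G.Dart := by
  have : Function.Injective (fun d : G.Dart => d.toProd) := Dart.toProd_injective
  exact Finite.of_injective _ this

theorem gi_exists_B [Finite V] {σ : Equiv.Perm G.Dart} (hσ : IsRotation G σ) (f : Face G σ)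
    (hf : ¬ gi_Alone G σ f) : ∃ u v, (gi_B G σ f).Adj u v := by
  have hfin := gi_dart_finite G
  by_contra hcon
  push Not at hcon
  have hsym : ∀ d : G.Dart, gi_face G σ d = f ↔ gi_face G σ d.symm = f := by
    intro d
    by_contra hd
    exact hcon d.fst d.snd ⟨d.adj, hd⟩
  have hsame : ∀ d d' : G.Dart, d.fst = d'.fst → gi_face G σ d = f → gi_face G σ d' = f := by
    intro d d' hdd hd
    obtain ⟨n, hn⟩ := (hσ.2 d d' hdd).exists_nat_pow_eq
    rw [← hn]
    clear hn hdd
    induction n with
    | zero => simpa using hd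
    | succ n ih =>
      rw [pow_succ', Equiv.Perm.mul_apply, ← gi_face_symm]
      exact (hsym _).1 ih
  apply hf
  intro d d' hd hr
  obtain ⟨p⟩ := hr
  have key : ∀ (u v : V) (_ : G.Walk u v) (d d' : G.Dart), d.fst = u → d'.fst = v →
      gi_face G σ d = f → gi_face G σ d' = f := by
    intro u v p
    induction p with
    | nil =>
      intro d d' h1 h2 h3
      exact hsame d d' (h1.trans h2.symm) h3
    | @cons u w v hadj p ih =>
      intro d d' h1 h2 h3
      have h4 : gi_face G σ ⟨(u, w), hadj⟩ = f := hsame d _ h1 h3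
      have h5 : gi_face G σ (⟨(u, w), hadj⟩ : G.Dart).symm = f := (hsym _).1 h4
      exact ih _ d' rfl h2 h5
  exact key _ _ p d d' rfl rfl hd

variable [Finite V]

theorem gi_even {σ : Equiv.Perm G.Dart} (hσ : IsRotation G σ) (f : Face G σ) (u v : V)
    (h : (gi_B G σ f).Adj u v) : ∃ w, w ≠ v ∧ (gi_B G σ f).Adj u w := by
  by_contra hcon
  push Not at hcon
  have hfin := gi_dart_finite G
  have : Fintype G.Dart := Fintype.ofFinite _
  obtain ⟨hadj, hne⟩ := h
  let a : G.Dart → ZMod 2 := fun d => if d.fst = u ∧ gi_face G σ d = f then 1 else 0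
  have h1 : ∑ d, (a d + a (σ d)) = 0 := by
    rw [Finset.sum_add_distrib, Equiv.sum_comp σ a]
    exact CharTwo.add_self_eq_zero _
  have h2 : ∀ d : G.Dart, a d + a (σ d) = if d = ⟨(u, v), hadj⟩ then 1 else 0 := by
    intro d
    have h3 : a (σ d) = if d.fst = u ∧ gi_face G σ d.symm = f then 1 else 0 := by
      simp only [a, hσ.1 d, gi_face_symm]
    rw [h3]
    simp only [a]
    by_cases hd : d = ⟨(u, v), hadj⟩
    · subst hd
      have h4 : (⟨(u, v), hadj⟩ : G.Dart).symm = ⟨(v, u), hadj.symm⟩ := rfl
      rw [h4]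
      by_cases h5 : gi_face G σ ⟨(u, v), hadj⟩ = f <;>
        by_cases h6 : gi_face G σ ⟨(v, u), hadj.symm⟩ = f <;> simp [h5, h6] at hne ⊢
    · rw [if_neg hd]
      by_cases hu : d.fst = u
      · have h5 : ¬ (gi_B G σ f).Adj u d.snd := by
          intro h6
          apply hd
          by_contra h7
          refine hcon d.snd ?_ h6
          intro h8
          apply h7
          ext
          · exact hu
          · exact h8
        have h6 : gi_face G σ d = f ↔ gi_face G σ d.symm = f := by
          by_contra h7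
          apply h5
          subst hu
          exact ⟨d.adj, h7⟩
        by_cases h7 : gi_face G σ d = f
        · have h8 := h6.1 h7
          simp only [hu, h7, h8, and_self, if_true]
          exact CharTwo.add_self_eq_zero _
        · have h8 : ¬ gi_face G σ d.symm = f := fun h9 => h7 (h6.2 h9)
          simp only [h7, h8, and_false, if_false, add_zero]
      · simp only [hu, false_and, if_false, add_zero]
  rw [Finset.sum_congr rfl fun d _ => h2 d] at h1
  simp at h1

/-- A finite graph with an edge in which no vertex has exactly one neighbour has a cycle. -/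
theorem gi_not_acyclic {H : SimpleGraph V} (hne : ∃ u v, H.Adj u v)
    (h2 : ∀ u v, H.Adj u v → ∃ w, w ≠ v ∧ H.Adj u w) : ¬ H.IsAcyclic := by
  intro hac
  obtain ⟨a, b, hab⟩ := hne
  have : Nonempty V := ⟨a⟩
  obtain ⟨u, v, p, hp, hmax⟩ := Walk.exists_isPath_forall_isPath_length_le_length H
  have hnil : ¬ p.Nil := by
    intro hn
    have h1 := hmax a b (Walk.cons hab Walk.nil) (by simp [Walk.cons_isPath_iff, hab.ne])
    rw [Walk.length_eq_zero_iff.2 hn] at h1
    simp at h1
  obtain ⟨w, hw, huw⟩ := h2 u p.snd (p.adj_snd hnil)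
  have h1 : w ∉ p.support := fun hs => hw (hac.eq_snd_of_adj_start hp huw hs)
  have h3 := hmax w v (Walk.cons huw.symm p) (by rw [Walk.cons_isPath_iff]; exact ⟨hp, h1⟩)
  rw [Walk.length_cons] at h3
  omega

theorem gi_face_card [Fintype G.Dart] {σ : Equiv.Perm G.Dart} (hσ : IsRotation G σ) (L : ℕ)
    (hL : ∀ (v : V) (c : G.Walk v v), c.IsCycle → L < c.length) (f : Face G σ)
    (hf : ¬ gi_Alone G σ f) :
    L + 1 ≤ (Finset.univ.filter fun d : G.Dart => gi_face G σ d = f).card := by
  have h1 := gi_not_acyclic (gi_exists_B G hσ f hf) (gi_even G hσ f)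
  unfold SimpleGraph.IsAcyclic at h1
  push Not at h1
  obtain ⟨v, c, hc⟩ := h1
  have h2 := hL v (c.mapLe (gi_B_le G σ f)) (hc.mapLe (gi_B_le G σ f))
  rw [Walk.length_map] at h2
  have : Fintype V := Fintype.ofFinite _
  have : Fintype (gi_B G σ f).edgeSet := Fintype.ofFinite _
  have h4 : c.length ≤ (gi_B G σ f).edgeFinset.card := hc.isTrail.length_le_card_edgeFinset
  have h5 : (gi_B G σ f).edgeFinset ⊆
      (Finset.univ.filter fun d : G.Dart => gi_face G σ d = f).image Dart.edge := by
    intro e he
    rw [mem_edgeFinset] at he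
    induction e using Sym2.ind with
    | _ a b =>
      obtain ⟨hadj, hne⟩ := (SimpleGraph.mem_edgeSet _).1 he
      rw [Finset.mem_image]
      by_cases h6 : gi_face G σ ⟨(a, b), hadj⟩ = f
      · exact ⟨⟨(a, b), hadj⟩, by simp [h6], rfl⟩
      · have h7 : gi_face G σ ⟨(b, a), hadj.symm⟩ = f := by
          by_contra h8
          exact hne ⟨fun h9 => absurd h9 h6, fun h9 => absurd h9 h8⟩
        exact ⟨⟨(b, a), hadj.symm⟩, by simp [h7], Sym2.eq_swap⟩
  have h6 := (Finset.card_le_card h5).trans Finset.card_image_le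
  omega

theorem gi_comp (σ : Equiv.Perm G.Dart) :
    Nat.card {f : Face G σ // gi_Alone G σ f} + Nat.card {v : V // ∀ w, ¬ G.Adj v w} ≤
    Nat.card G.ConnectedComponent := by
  have hfin := gi_dart_finite G
  have : Finite (Face G σ) := Quotient.finite _
  have : Finite G.ConnectedComponent := Quot.finite _
  rw [← Nat.card_sum]
  set F : {f : Face G σ // gi_Alone G σ f} ⊕ {v : V // ∀ w, ¬ G.Adj v w} → G.ConnectedComponent :=
    Sum.elim (fun f => G.connectedComponentMk (gi_face_surj G σ f.1).choose.fst)
      (fun v => G.connectedComponentMk v.1) with hF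
  have hiso : ∀ (v : V), (∀ w, ¬ G.Adj v w) → ∀ u, G.Reachable v u → u = v := by
    intro v hv u hu
    obtain ⟨p⟩ := hu
    cases p with
    | nil => rfl
    | cons h p => exact absurd h (hv _)
  apply Nat.card_le_card_of_injective F
  intro a b hab
  rcases a with ⟨f, hf⟩ | ⟨v, hv⟩ <;> rcases b with ⟨f', hf'⟩ | ⟨v', hv'⟩
  · simp only [hF, Sum.elim_inl] at hab
    have h1 := (gi_face_surj G σ f).choose_spec
    have h2 := (gi_face_surj G σ f').choose_spec
    have h3 := hf _ (gi_face_surj G σ f').choose h1 (ConnectedComponent.exact hab)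
    rw [h2] at h3
    subst h3
    rfl
  · exfalso
    simp only [hF, Sum.elim_inl, Sum.elim_inr] at hab
    have h1 := hiso v' hv' _ (ConnectedComponent.exact hab.symm)
    exact hv' (gi_face_surj G σ f).choose.snd (h1 ▸ (gi_face_surj G σ f).choose.adj)
  · exfalso
    simp only [hF, Sum.elim_inl, Sum.elim_inr] at hab
    have h1 := hiso v hv _ (ConnectedComponent.exact hab)
    exact hv (gi_face_surj G σ f').choose.snd (h1 ▸ (gi_face_surj G σ f').choose.adj)
  · simp only [hF, Sum.elim_inr] at hab
    have h1 := hiso v hv v' (ConnectedComponent.exact hab)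
    subst h1
    rfl

theorem gi_count {σ : Equiv.Perm G.Dart} (hσ : IsRotation G σ) (L : ℕ)
    (hL : ∀ (v : V) (c : G.Walk v v), c.IsCycle → L < c.length) :
    (L + 1) * Nat.card (Face G σ) ≤
      2 * Nat.card G.edgeSet + (L + 1) * Nat.card {f : Face G σ // gi_Alone G σ f} := by
  have hfin := gi_dart_finite G
  have : Fintype V := Fintype.ofFinite _
  have : Fintype G.Dart := Fintype.ofFinite _
  have : Finite (Face G σ) := Quotient.finite _
  have : Fintype (Face G σ) := Fintype.ofFinite _
  have : Fintype G.edgeSet := Fintype.ofFinite _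
  have h1 : Fintype.card G.Dart = 2 * Nat.card G.edgeSet := by
    rw [Nat.card_eq_fintype_card, ← SimpleGraph.edgeFinset_card]
    have h0 := G.dart_card_eq_twice_card_edges
    have h01 : Fintype.card G.Dart = @Fintype.card G.Dart SimpleGraph.Dart.fintype :=
      @Fintype.card_congr _ _ _ SimpleGraph.Dart.fintype (Equiv.refl G.Dart)
    refine h01.trans (h0.trans ?_)
    exact congrArg (fun s => 2 * Finset.card s) (by ext e; simp only [SimpleGraph.mem_edgeFinset])
  have h2 : ∑ f : Face G σ, (Finset.univ.filter fun d : G.Dart => gi_face G σ d = f).card =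
      Fintype.card G.Dart := by
    rw [← Finset.card_univ]
    exact (Finset.card_eq_sum_card_fiberwise (fun _ _ => Finset.mem_univ _)).symm
  have h3 : (L + 1) * (Finset.univ.filter fun f : Face G σ => ¬ gi_Alone G σ f).card ≤
      Fintype.card G.Dart := by
    rw [← h2, mul_comm, ← smul_eq_mul]
    refine le_trans ?_ (Finset.sum_le_sum_of_subset
      (Finset.filter_subset (fun f : Face G σ => ¬ gi_Alone G σ f) Finset.univ))
    apply Finset.card_nsmul_le_sum
    intro f hf
    exact gi_face_card G hσ L hL f (Finset.mem_filter.1 hf).2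
  have h4 : Nat.card {f : Face G σ // gi_Alone G σ f} =
      (Finset.univ.filter fun f : Face G σ => gi_Alone G σ f).card := by
    rw [Nat.card_eq_fintype_card, Fintype.card_subtype]
  have h5 := Finset.card_filter_add_card_filter_not (s := (Finset.univ : Finset (Face G σ)))
    (fun f : Face G σ => gi_Alone G σ f)
  rw [Nat.card_eq_fintype_card (α := Face G σ), h4, ← h1, ← Finset.card_univ, ← h5, mul_add]
  omega

end girthaux

theorem not_embeds_of_girth {V : Type} [Finite V] (G : SimpleGraph V) (L g : ℕ)
    (hL : ∀ (v : V) (c : G.Walk v v), c.IsCycle → L < c.length)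
    (h : (L + 1) * (Nat.card V + 2 * g) + 2 * Nat.card G.edgeSet < (L + 1) * Nat.card G.edgeSet) :
    ¬ Embeds G g := by
  rintro ⟨σ, hσ, heu⟩
  have h1 := gi_count G hσ L hL
  have h2 := gi_comp G σ
  unfold numFaces at heu
  have h3 := Nat.mul_le_mul_left (L + 1) heu
  have h4 := Nat.mul_le_mul_left (L + 1) h2
  have h5 : (L + 1) * (2 * Nat.card G.ConnectedComponent) =
      2 * ((L + 1) * Nat.card G.ConnectedComponent) := by ring
  simp only [mul_add] at h3 h4 h
  omega

end Pool.Agent.Helper226_Obs
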