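import Pool.Agent.Helper226_Obs.Defs

set_option autoImplicit false

namespace Pool.Agent.Helper226_Obs

open SimpleGraph

/-
TARGET L3. Plain proof. Since H is not Embeds g, with c components, V vertices, iso isolated vertices, F = Nat.card (Face H σ):
V + F + iso + 2g < E + 2c. Every component is an isolated vertex or has at least two vertices, so 2c ≤ V + iso. Hence F + 2g < E.
(For 2c ≤ V + iso: for each component choose a vertex, and a second vertex if it is not isolated, otherwise the element of the type of isolated vertices:
injection from ConnectedComponent × Bool into V ⊕ {v // ∀ w, ¬ H.Adj v w}.)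

Return the full file. You may put auxiliary lemmas before the target. Keep the statement of the target unchanged. RULES.md item 2 bans some words and characters in the file
(notation, syntax, macro, prefix, tactic, partial, meta, straight double quotes, guillemets), also partly in comments: please respect that.
-/
theorem faces_lt_comp {W : Type} [Finite W] (H : SimpleGraph W) :
    2 * Nat.card H.ConnectedComponent ≤ Nat.card W + Nat.card {v : W // ∀ w, ¬ H.Adj v w} := by
  classical
  have hex : ∀ c : H.ConnectedComponent, ∃ v : W, H.connectedComponentMk v = c := fun c => by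
    induction c using SimpleGraph.ConnectedComponent.ind with
    | h v => exact ⟨v, rfl⟩
  choose v hv using hex
  let f : H.ConnectedComponent × Bool → W ⊕ {v : W // ∀ w, ¬ H.Adj v w} := fun x =>
    if x.2 = false then Sum.inl (v x.1)
    else if h : ∃ w, H.Adj (v x.1) w then Sum.inl (Classical.choose h)
    else Sum.inr ⟨v x.1, fun w hw => h ⟨w, hw⟩⟩
  let under : W ⊕ {v : W // ∀ w, ¬ H.Adj v w} → W := fun y => Sum.elim id Subtype.val y
  have hcomp : ∀ x, H.connectedComponentMk (under (f x)) = x.1 := by
    rintro ⟨c, b⟩
    cases b with
    | false =>
      show H.connectedComponentMk (v c) = c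
      exact hv c
    | true =>
      by_cases h : ∃ w, H.Adj (v c) w
      · have e : f (c, true) = Sum.inl (Classical.choose h) := by
          simp [f, h]
        rw [e]
        show H.connectedComponentMk (Classical.choose h) = c
        rw [← SimpleGraph.ConnectedComponent.connectedComponentMk_eq_of_adj
          (Classical.choose_spec h)]
        exact hv c
      · have e : f (c, true) = Sum.inr ⟨v c, fun w hw => h ⟨w, hw⟩⟩ := by
          simp [f, h]
        rw [e]
        exact hv c
  have hne : ∀ c, f (c, false) ≠ f (c, true) := by
    intro c hc
    have e0 : f (c, false) = Sum.inl (v c) := by simp [f]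
    by_cases h : ∃ w, H.Adj (v c) w
    · have e : f (c, true) = Sum.inl (Classical.choose h) := by
        simp [f, h]
      rw [e0, e] at hc
      have h1 : v c = Classical.choose h := Sum.inl.inj hc
      have h2 := Classical.choose_spec h
      rw [← h1] at h2
      exact H.loopless.irrefl _ h2
    · have e : f (c, true) = Sum.inr ⟨v c, fun w hw => h ⟨w, hw⟩⟩ := by
        simp [f, h]
      rw [e0, e] at hc
      exact absurd hc (by simp)
  have hinj : Function.Injective f := by
    rintro ⟨c, b⟩ ⟨c', b'⟩ h
    have h1 : c = c' := by
      have e1 := hcomp (c, b)
      have e2 := hcomp (c', b')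
      rw [h] at e1
      rw [e1] at e2
      exact e2
    subst h1
    cases b <;> cases b'
    · rfl
    · exact absurd h (hne c)
    · exact absurd h.symm (hne c)
    · rfl
  have := Nat.card_le_card_of_injective f hinj
  rw [Nat.card_prod, Nat.card_sum, Nat.card_eq_fintype_card (α := Bool), Fintype.card_bool] at this
  omega

theorem faces_lt {W : Type} [Finite W] (H : SimpleGraph W) (g : ℕ) (h : ¬ Embeds H g)
    (σ : Equiv.Perm H.Dart) (hσ : IsRotation H σ) :
    Nat.card (Face H σ) + 2 * g < Nat.card H.edgeSet := by
  have h1 := faces_lt_comp H
  have h2 : ¬ (Nat.card H.edgeSet + 2 * Nat.card H.ConnectedComponent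
      ≤ Nat.card W + numFaces H σ + 2 * g) := fun h3 => h ⟨σ, hσ, h3⟩
  unfold numFaces at h2
  omega

end Pool.Agent.Helper226_Obs
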