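import Pool.Agent.Helper226_Obs.Defs

set_option autoImplicit false

namespace Pool.Agent.Helper226_Obs

open SimpleGraph

section L4

variable {W : Type} (H : SimpleGraph W)

theorem er_finite [Finite W] : Finite H.Dart :=
  Finite.of_injective (fun d : H.Dart => d.toProd) (fun _ _ h => SimpleGraph.Dart.ext _ _ h)

variable {H}

/-- the next dart of a closed walk starts where the dart ends -/
theorem er_next_fst [DecidableEq H.Dart] {b : W} (C : H.Walk b b) (hC : C.IsCycle) (d : H.Dart)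
    (hd : d ∈ C.darts) : (C.darts.formPerm d).fst = d.snd := by
  have hnd : C.darts.Nodup := by
    have h1 := hC.edges_nodup
    unfold SimpleGraph.Walk.edges at h1
    exact List.Nodup.of_map _ h1
  obtain ⟨i, hi, rfl⟩ := List.getElem_of_mem hd
  rw [List.formPerm_apply_getElem _ hnd i hi]
  have hlen : C.darts.length = C.length := C.length_darts
  rw [SimpleGraph.Walk.darts_getElem_eq_getVert, SimpleGraph.Walk.darts_getElem_eq_getVert]
  change C.getVert ((i + 1) % C.darts.length) = C.getVert (i + 1)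
  rcases Nat.lt_or_ge (i + 1) C.darts.length with h | h
  · rw [Nat.mod_eq_of_lt h]
  · have h2 : i + 1 = C.darts.length := by omega
    rw [h2, Nat.mod_self, hlen, SimpleGraph.Walk.getVert_length, SimpleGraph.Walk.getVert_zero]

/-- a dart and its reverse are not both in a cycle -/
theorem er_symm_notMem {b : W} (C : H.Walk b b) (hC : C.IsCycle) (d : H.Dart)
    (hd : d ∈ C.darts) : d.symm ∉ C.darts := by
  intro h
  have h1 := hC.edges_nodup
  unfold SimpleGraph.Walk.edges at h1
  have h2 := List.inj_on_of_nodup_map h1 hd h (by rw [SimpleGraph.Dart.edge_symm])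
  exact SimpleGraph.Dart.symm_ne d h2.symm

theorem er_mem_edges {b : W} (C : H.Walk b b) {d : H.Dart} (hd : d ∈ C.darts) :
    d.edge ∈ C.edges := List.mem_map_of_mem hd

variable {k : ℕ} {b : Fin k → W} {C : ∀ i, H.Walk (b i) (b i)}

/-- the index of a cycle through a dart is unique -/
theorem er_unique (hd : ∀ i j, i ≠ j → ∀ e ∈ (C i).edges, e ∉ (C j).edges) {i j : Fin k}
    {d : H.Dart} (h1 : d ∈ (C i).darts) (h2 : d ∈ (C j).darts) : i = j := by
  by_contra h
  exact hd i j h _ (er_mem_edges _ h1) (er_mem_edges _ h2)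

/-- the set of the darts of all cycles -/
def ErT (C : ∀ i, H.Walk (b i) (b i)) : Set H.Dart := {d | ∃ i, d ∈ (C i).darts}

theorem er_symm (hC : ∀ i, (C i).IsCycle)
    (hd : ∀ i j, i ≠ j → ∀ e ∈ (C i).edges, e ∉ (C j).edges) {d : H.Dart} (h : d ∈ ErT C) :
    d.symm ∉ ErT C := by
  obtain ⟨i, hi⟩ := h
  rintro ⟨j, hj⟩
  have h1 := er_mem_edges _ hi
  have h2 := er_mem_edges _ hj
  rw [SimpleGraph.Dart.edge_symm] at h2
  have hij : i = j := by
    by_contra h
    exact hd i j h _ h1 h2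
  subst hij
  exact er_symm_notMem _ (hC i) d hi hj

/-- the successor permutation of the darts of all cycles -/
theorem er_next [Finite W] (hC : ∀ i, (C i).IsCycle)
    (hd : ∀ i j, i ≠ j → ∀ e ∈ (C i).edges, e ∉ (C j).edges) :
    ∃ nxt : Equiv.Perm H.Dart, (∀ i, ∀ d ∈ (C i).darts, nxt d ∈ (C i).darts ∧ (nxt d).fst = d.snd) ∧
      ∀ d, nxt d ∈ ErT C ↔ d ∈ ErT C := by
  classical
  have := er_finite H
  let f : H.Dart → H.Dart := fun d =>
    if h : ∃ i, d ∈ (C i).darts then (C h.choose).darts.formPerm d else d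
  have hf1 : ∀ i, ∀ d ∈ (C i).darts, f d = (C i).darts.formPerm d := by
    intro i d hdi
    have h : ∃ i, d ∈ (C i).darts := ⟨i, hdi⟩
    have h2 : h.choose = i := er_unique hd h.choose_spec hdi
    change (if h : ∃ i, d ∈ (C i).darts then (C h.choose).darts.formPerm d else d) = _
    rw [dif_pos h, h2]
  have hf2 : ∀ d, d ∉ ErT C → f d = d := by
    intro d hdT
    change (if h : ∃ i, d ∈ (C i).darts then (C h.choose).darts.formPerm d else d) = _
    exact dif_neg hdT
  have hf3 : ∀ i, ∀ d ∈ (C i).darts, f d ∈ (C i).darts := by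
    intro i d hdi
    rw [hf1 i d hdi]
    exact List.formPerm_apply_mem_of_mem hdi
  have hf4 : ∀ d, f d ∈ ErT C ↔ d ∈ ErT C := by
    intro d
    by_cases hdT : d ∈ ErT C
    · obtain ⟨i, hi⟩ := hdT
      exact ⟨fun _ => ⟨i, hi⟩, fun _ => ⟨i, hf3 i d hi⟩⟩
    · rw [hf2 d hdT]
  have hinj : Function.Injective f := by
    intro d d' h
    by_cases h1 : d ∈ ErT C
    · have h2 : d' ∈ ErT C := by
        rw [← hf4 d', ← h, hf4 d]
        exact h1
      obtain ⟨i, hi⟩ := h1
      obtain ⟨j, hj⟩ := h2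
      have h3 := hf3 i d hi
      have h4 := hf3 j d' hj
      rw [← h] at h4
      have hij := er_unique hd h3 h4
      subst hij
      rw [hf1 i d hi, hf1 i d' hj] at h
      exact (C i).darts.formPerm.injective h
    · have h2 : d' ∉ ErT C := by
        intro h2
        apply h1
        rw [← hf4 d, h, hf4 d']
        exact h2
      rwa [hf2 d h1, hf2 d' h2] at h
  refine ⟨Equiv.ofBijective f (Finite.injective_iff_bijective.1 hinj), ?_, ?_⟩
  · intro i d hdi
    rw [Equiv.ofBijective_apply]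
    refine ⟨hf3 i d hdi, ?_⟩
    rw [hf1 i d hdi]
    exact er_next_fst (C i) (hC i) d hdi
  · intro d
    rw [Equiv.ofBijective_apply]
    exact hf4 d

/-- a permutation which is cyclic on the complement of `T` in every fibre of `fst` and fixes `T` -/
theorem er_tau [Finite W] (T : Set H.Dart) :
    ∃ τ : Equiv.Perm H.Dart, (∀ d, (τ d).fst = d.fst) ∧ (∀ d ∈ T, τ d = d) ∧
      (∀ d, d ∉ T → τ d ∉ T) ∧
      ∀ d d', d ∉ T → d' ∉ T → d.fst = d'.fst → ∃ n : ℕ, (τ ^ n) d = d' := by
  classical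
  have := er_finite H
  let _ : Fintype H.Dart := Fintype.ofFinite _
  let F : W → Finset H.Dart := fun w => Finset.univ.filter (fun d => d.fst = w ∧ d ∉ T)
  have hF : ∀ w d, d ∈ F w ↔ d.fst = w ∧ d ∉ T := by
    intro w d
    simp [F]
  choose f hf using fun w => (F w).exists_cycleOn
  have hfT : ∀ w d, d ∉ F w → f w d = d := by
    intro w d hdw
    by_contra hne
    exact hdw ((hf w).2 (Equiv.Perm.mem_support.2 hne))
  have hfF : ∀ w, ∀ d ∈ F w, f w d ∈ F w := by
    intro w d hdw
    exact (hf w).1.1.mapsTo hdw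
  let t : H.Dart → H.Dart := fun d => f d.fst d
  have ht1 : ∀ d, (t d).fst = d.fst := by
    intro d
    by_cases h : d ∈ F d.fst
    · exact ((hF _ _).1 (hfF _ d h)).1
    · have h2 : t d = d := hfT _ d h
      rw [h2]
  have hinj : Function.Injective t := by
    intro d d' h
    have h1 : d.fst = d'.fst := by rw [← ht1 d, h, ht1 d']
    have h2 : f d.fst d = f d.fst d' := by
      have h3 : f d.fst d = f d'.fst d' := h
      rw [h3, h1]
    exact (f d.fst).injective h2
  let τ : Equiv.Perm H.Dart := Equiv.ofBijective t (Finite.injective_iff_bijective.1 hinj)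
  have hτ : ∀ d, τ d = t d := fun d => rfl
  refine ⟨τ, ?_, ?_, ?_, ?_⟩
  · intro d
    rw [hτ]
    exact ht1 d
  · intro d hdT
    rw [hτ]
    apply hfT
    rw [hF]
    exact fun h => h.2 hdT
  · intro d hdT
    rw [hτ]
    exact ((hF _ _).1 (hfF _ d ((hF _ _).2 ⟨rfl, hdT⟩))).2
  · intro d d' hdT hdT' hfst
    have h1 : d ∈ F d.fst := (hF _ _).2 ⟨rfl, hdT⟩
    have h2 : d' ∈ F d.fst := (hF _ _).2 ⟨hfst.symm, hdT'⟩
    obtain ⟨n, _, hn⟩ := (hf d.fst).1.exists_pow_eq h1 h2
    refine ⟨n, ?_⟩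
    have key : ∀ n : ℕ, (τ ^ n) d = (f d.fst ^ n) d ∧ (f d.fst ^ n) d ∈ F d.fst := by
      intro n
      induction n with
      | zero => exact ⟨rfl, h1⟩
      | succ n ih =>
        rw [pow_succ', Equiv.Perm.mul_apply, pow_succ', Equiv.Perm.mul_apply, ih.1]
        refine ⟨?_, hfF _ _ ih.2⟩
        rw [hτ]
        change f ((f d.fst ^ n) d).fst ((f d.fst ^ n) d) = _
        rw [((hF _ _).1 ih.2).1]
    rw [(key n).1]
    exact hn

end L4

theorem exists_rotation {W : Type} [Finite W] (H : SimpleGraph W) (k : ℕ) (b : Fin k → W)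
    (C : ∀ i, H.Walk (b i) (b i)) (hC : ∀ i, (C i).IsCycle)
    (hd : ∀ i j, i ≠ j → ∀ e ∈ (C i).edges, e ∉ (C j).edges) :
    ∃ σ : Equiv.Perm H.Dart, IsRotation H σ ∧ k ≤ Nat.card (Face H σ) := by
  classical
  have hfin := er_finite H
  obtain ⟨nxt, hn1, hn2⟩ := er_next hC hd
  obtain ⟨τ, ht1, ht2, ht3, ht4⟩ := er_tau (ErT C)
  have hsym : ∀ d ∈ ErT C, d.symm ∉ ErT C := fun d h => er_symm hC hd h
  have hnfst : ∀ d ∈ ErT C, (nxt d).fst = d.snd := by
    rintro d ⟨i, hi⟩
    exact (hn1 i d hi).2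
  have hn3 : ∀ d, nxt.symm d ∈ ErT C ↔ d ∈ ErT C := by
    intro d
    rw [← hn2, Equiv.apply_symm_apply]
  -- the involution
  let s0 : H.Dart → H.Dart := fun x =>
    if x.symm ∈ ErT C then nxt x.symm else if x ∈ ErT C then (nxt.symm x).symm else x
  have hs1 : ∀ x, x.symm ∈ ErT C → s0 x = nxt x.symm := fun x hx => if_pos hx
  have hs2 : ∀ x, x ∈ ErT C → s0 x = (nxt.symm x).symm := by
    intro x hx
    have h1 : x.symm ∉ ErT C := hsym x hx
    change (if x.symm ∈ ErT C then nxt x.symm else if x ∈ ErT C then (nxt.symm x).symm else x) = _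
    rw [if_neg h1, if_pos hx]
  have hs3 : ∀ x, x.symm ∉ ErT C → x ∉ ErT C → s0 x = x := by
    intro x h1 h2
    change (if x.symm ∈ ErT C then nxt x.symm else if x ∈ ErT C then (nxt.symm x).symm else x) = _
    rw [if_neg h1, if_neg h2]
  have hinv : Function.Involutive s0 := by
    intro x
    by_cases h1 : x.symm ∈ ErT C
    · rw [hs1 x h1]
      have h2 : nxt x.symm ∈ ErT C := (hn2 _).2 h1
      rw [hs2 _ h2, Equiv.symm_apply_apply, SimpleGraph.Dart.symm_symm]
    · by_cases h2 : x ∈ ErT C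
      · rw [hs2 x h2]
        have h3 : (nxt.symm x).symm.symm ∈ ErT C := by
          rw [SimpleGraph.Dart.symm_symm]
          exact (hn3 x).2 h2
        rw [hs1 _ h3, SimpleGraph.Dart.symm_symm, Equiv.apply_symm_apply]
      · rw [hs3 x h1 h2, hs3 x h1 h2]
  have hsfst : ∀ x, (s0 x).fst = x.fst := by
    intro x
    by_cases h1 : x.symm ∈ ErT C
    · rw [hs1 x h1, hnfst _ h1]
      rfl
    · by_cases h2 : x ∈ ErT C
      · rw [hs2 x h2]
        have h3 := hnfst _ ((hn3 x).2 h2)
        rw [Equiv.apply_symm_apply] at h3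
        rw [h3]
        rfl
      · rw [hs3 x h1 h2]
  let s : Equiv.Perm H.Dart := hinv.toPerm
  have hs : ∀ x, s x = s0 x := fun x => rfl
  let σ : Equiv.Perm H.Dart := τ * s
  have hσ : ∀ x, σ x = τ (s0 x) := fun x => rfl
  -- values
  have hσ1 : ∀ d ∈ ErT C, σ d.symm = nxt d := by
    intro d hdT
    have h1 : d.symm.symm ∈ ErT C := by
      rw [SimpleGraph.Dart.symm_symm]
      exact hdT
    rw [hσ, hs1 _ h1, SimpleGraph.Dart.symm_symm]
    exact ht2 _ ((hn2 _).2 hdT)
  have hstep : ∀ x, x ∉ ErT C → σ.SameCycle x (τ x) := by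
    intro x hx
    by_cases h1 : x.symm ∈ ErT C
    · have h2 : σ x = nxt x.symm := by
        rw [hσ, hs1 x h1]
        exact ht2 _ ((hn2 _).2 h1)
      have h3 : nxt x.symm ∈ ErT C := (hn2 _).2 h1
      have h4 : σ (σ x) = τ x := by
        rw [h2, hσ, hs2 _ h3, Equiv.symm_apply_apply, SimpleGraph.Dart.symm_symm]
      rw [← h4]
      exact (Equiv.Perm.sameCycle_apply_right.2
        (Equiv.Perm.sameCycle_apply_right.2 (Equiv.Perm.SameCycle.refl σ x)))
    · have h2 : σ x = τ x := by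
        rw [hσ, hs3 x h1 hx]
      rw [← h2]
      exact Equiv.Perm.sameCycle_apply_right.2 (Equiv.Perm.SameCycle.refl σ x)
  have hpow : ∀ (n : ℕ) (x : H.Dart), x ∉ ErT C → σ.SameCycle x ((τ ^ n) x) ∧ (τ ^ n) x ∉ ErT C := by
    intro n x hx
    induction n with
    | zero => exact ⟨Equiv.Perm.SameCycle.refl σ x, hx⟩
    | succ n ih =>
      rw [pow_succ', Equiv.Perm.mul_apply]
      exact ⟨ih.1.trans (hstep _ ih.2), ht3 _ ih.2⟩
  have hout : ∀ x, ∃ y, y ∉ ErT C ∧ y.fst = x.fst ∧ σ.SameCycle x y := by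
    intro x
    by_cases hx : x ∈ ErT C
    · refine ⟨(nxt.symm x).symm, hsym _ ((hn3 x).2 hx), ?_, ?_⟩
      · rw [← hs2 x hx]
        exact hsfst x
      · have h1 : σ (nxt.symm x).symm = x := by
          rw [hσ1 _ ((hn3 x).2 hx), Equiv.apply_symm_apply]
        have h2 : σ.SameCycle (nxt.symm x).symm (σ (nxt.symm x).symm) :=
          Equiv.Perm.sameCycle_apply_right.2 (Equiv.Perm.SameCycle.refl σ _)
        rw [h1] at h2
        exact h2.symm
    · exact ⟨x, hx, rfl, Equiv.Perm.SameCycle.refl σ x⟩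
  refine ⟨σ, ⟨?_, ?_⟩, ?_⟩
  · intro d
    rw [hσ, ht1, hsfst]
  · intro d d' h
    obtain ⟨y, hy1, hy2, hy3⟩ := hout d
    obtain ⟨y', hy1', hy2', hy3'⟩ := hout d'
    obtain ⟨n, hn⟩ := ht4 y y' hy1 hy1' (by rw [hy2, hy2', h])
    have h3 := (hpow n y hy1).1
    rw [hn] at h3
    exact hy3.trans (h3.trans hy3'.symm)
  · -- faces
    have hface : ∀ i, ∀ d ∈ (C i).darts, facePerm H σ d ∈ (C i).darts := by
      intro i d hdi
      have h1 : facePerm H σ d = σ d.symm := rfl
      rw [h1, hσ1 d ⟨i, hdi⟩]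
      exact (hn1 i d hdi).1
    have hfacepow : ∀ i, ∀ d ∈ (C i).darts, ∀ n : ℕ, (facePerm H σ ^ n) d ∈ (C i).darts := by
      intro i d hdi n
      induction n with
      | zero => exact hdi
      | succ n ih =>
        rw [pow_succ', Equiv.Perm.mul_apply]
        exact hface i _ ih
    have hne : ∀ i, ∃ d, d ∈ (C i).darts := by
      intro i
      have h1 : 0 < (C i).darts.length := by
        rw [SimpleGraph.Walk.length_darts]
        have := (hC i).three_le_length
        omega
      exact ⟨_, List.getElem_mem h1⟩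
    choose dd hdd using hne
    let φ : Fin k → Face H σ := fun i => Quotient.mk _ (dd i)
    have hφ : Function.Injective φ := by
      intro i j h
      have h1 : (facePerm H σ).SameCycle (dd i) (dd j) := Quotient.exact h
      obtain ⟨n, hn⟩ := h1.exists_nat_pow_eq
      have h2 := hfacepow i (dd i) (hdd i) n
      rw [hn] at h2
      exact er_unique hd h2 (hdd j)
    have := Nat.card_le_card_of_injective φ hφ
    rwa [Nat.card_eq_fintype_card, Fintype.card_fin] at this

end Pool.Agent.Helper226_Obs
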