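import Pool.Agent.Helper226_Obs.Defs
import Pool.Agent.H268R3.BE.Cyc
import Pool.Agent.H968R3.GraphLem

set_option autoImplicit false

namespace Pool.Agent.Helper226_Obs

open SimpleGraph


namespace ManyCycles

theorem forest_card {W : Type} [Finite W] (m : ℕ) : ∀ (B : SimpleGraph W) (S : Finset W),
    S.card ≤ m → B.IsAcyclic → S.Nonempty → (∀ u v, B.Adj u v → u ∈ S) →
      B.edgeSet.ncard + 1 ≤ S.card := by
  classical
  induction m with
  | zero =>
    intro B S hS _ hne _
    have := Finset.card_pos.2 hne
    omega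
  | succ m ih =>
    intro B S hS hac hne hin
    by_cases hed : ∃ u v, B.Adj u v
    · have h1 : ∃ u v, B.Adj u v ∧ ∀ w, w ≠ v → ¬ B.Adj u w := by
        by_contra hcon
        push Not at hcon
        exact Pool.Agent.H968R3.not_acyclic hed hcon hac
      obtain ⟨u, v, huv, hu⟩ := h1
      have hu' : ∀ w, B.Adj u w → w = v := by
        intro w hw
        by_contra hne
        exact hu w hne hw
      have huS : u ∈ S := hin u v huv
      have hvS : v ∈ S := hin v u huv.symm
      have h2 := ih (B.deleteEdges {s(u, v)}) (S.erase u) (by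
          rw [Finset.card_erase_of_mem huS]
          omega) (hac.anti (B.deleteEdges_le _)) ⟨v, Finset.mem_erase.2 ⟨huv.ne', hvS⟩⟩ (by
          intro a b hab
          rw [deleteEdges_adj] at hab
          refine Finset.mem_erase.2 ⟨?_, hin a b hab.1⟩
          rintro rfl
          apply hab.2
          rw [hu' b hab.1]
          exact Set.mem_singleton _)
      rw [Finset.card_erase_of_mem huS, edgeSet_deleteEdges] at h2
      have h3 : (B.edgeSet \ {s(u, v)}).ncard + 1 = B.edgeSet.ncard :=
        Set.ncard_sdiff_singleton_add_one (by exact huv) (Set.toFinite _)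
      have h4 := Finset.card_pos.2 ⟨u, huS⟩
      omega
    · have : B.edgeSet = ∅ := by
        rw [edgeSet_eq_empty]
        ext u v
        simp only [bot_adj, iff_false]
        intro h
        exact hed ⟨u, v, h⟩
      rw [this, Set.ncard_empty]
      exact Finset.card_pos.2 hne

/-- one short cycle -/
theorem one_cycle {W : Type} [Finite W] (H : SimpleGraph W) (X : Set W) (n d R : ℕ)
    (hW : Nat.card W ≤ n) (hX : X.ncard * d ≤ n) (hd : n < d ^ R) (hR : 1 ≤ R)
    (hE : 2 * n ≤ {e | e ∈ H.edgeSet ∧ ∃ x ∈ e, x ∈ X}.ncard)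
    (hne : {e | e ∈ H.edgeSet ∧ ∃ x ∈ e, x ∈ X}.Nonempty) :
    ∃ (v : W) (C : H.Walk v v), C.IsCycle ∧ C.length ≤ 4 * R := by
  classical
  have := Fintype.ofFinite W
  obtain ⟨e0, he0, x00, hx00, hx0⟩ := hne
  have hn : 0 < n := by
    have : Nonempty W := ⟨x00⟩
    have : 0 < Nat.card W := Nat.card_pos
    omega
  have hd1 : 1 ≤ d := by
    rcases Nat.eq_zero_or_pos d with h | h
    · rw [h, zero_pow (by omega)] at hd
      omega
    · exact h
  -- the retraction to `X`
  let φ : W → X := fun w => if h : w ∈ X then ⟨w, h⟩ else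
    if h' : ∃ x : X, H.Adj w x then h'.choose else ⟨x00, hx0⟩
  have φ_in : ∀ w (h : w ∈ X), φ w = ⟨w, h⟩ := fun w h => by simp only [φ, dif_pos h]
  have φ_out : ∀ w, w ∉ X → (∃ x : X, H.Adj w x) → H.Adj w (φ w) := by
    intro w h h'
    simp only [φ, dif_neg h, dif_pos h']
    exact h'.choose_spec
  let EX : Finset (Sym2 W) := (Set.toFinite {e | e ∈ H.edgeSet ∧ ∃ x ∈ e, x ∈ X}).toFinset
  have hEX : ∀ e, e ∈ EX ↔ (e ∈ H.edgeSet ∧ ∃ x ∈ e, x ∈ X) := fun e => by
    simp [EX]
  have hEXc : 2 * n ≤ EX.card := by
    rw [Set.ncard_eq_toFinset_card _ (Set.toFinite _)] at hE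
    exact hE
  let Bs : Finset (Sym2 W) := Finset.univ.image (fun y : W => s(y, (φ y : W)))
  have hBs : Bs.card ≤ n := by
    refine Finset.card_image_le.trans ?_
    rw [Finset.card_univ, ← Nat.card_eq_fintype_card]
    exact hW
  let I : Finset (Sym2 W) := EX \ Bs
  have hIc : n ≤ I.card := by
    have h1 : EX.card - Bs.card ≤ I.card := Finset.le_card_sdiff Bs EX
    omega
  let τ : Sym2 W → Finset X := fun e => Finset.univ.filter (fun x => x ∈ Sym2.map φ e)
  have hτmk : ∀ u v, τ s(u, v) = {φ u, φ v} := by
    intro u v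
    ext x
    simp only [τ, Finset.mem_filter, Finset.mem_univ, true_and, Sym2.map_mk, Sym2.mem_iff,
      Finset.mem_insert, Finset.mem_singleton]
  -- ends of labels
  have key : ∀ u v, H.Adj u v → u ∈ X → s(u, v) ∉ Bs → φ u ≠ φ v := by
    intro u v huv hu hB h
    by_cases hv : v ∈ X
    · rw [φ_in u hu, φ_in v hv] at h
      exact huv.ne (congrArg Subtype.val h)
    · apply hB
      refine Finset.mem_image.2 ⟨v, Finset.mem_univ _, ?_⟩
      rw [← h, φ_in u hu]
      exact Sym2.eq_swap
  have hτ : ∀ e ∈ I, (τ e).card = 2 := by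
    intro e he
    rw [Finset.mem_sdiff, hEX] at he
    obtain ⟨⟨h1, x, hx, hxX⟩, h2⟩ := he
    obtain ⟨y, rfl⟩ := hx
    rw [hτmk, Finset.card_pair (key x y h1 hxX h2)]
  obtain ⟨P, hPI, hPne, hPc, hPb⟩ := Pool.Agent.H268R3.BE.short_cycle τ I hτ hR
    (d := d) (by
      rw [← Nat.card_eq_fintype_card, Nat.card_coe_set_eq]
      calc X.ncard = X.ncard * 1 := (mul_one _).symm
        _ ≤ X.ncard * d := Nat.mul_le_mul_left _ hd1
        _ ≤ n := hX
        _ < d ^ R := hd) (by
      rw [← Nat.card_eq_fintype_card, Nat.card_coe_set_eq]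
      exact hX.trans hIc) (Finset.card_pos.1 (by omega))
  have hPE : ∀ e ∈ P, e ∈ H.edgeSet ∧ (∃ x ∈ e, x ∈ X) ∧ e ∉ Bs := by
    intro e he
    have := hPI he
    rw [Finset.mem_sdiff, hEX] at this
    exact ⟨this.1.1, this.1.2, this.2⟩
  -- vertices outside `X` which occur
  let Y : Finset W := Finset.univ.filter (fun y => y ∉ X ∧ ∃ e ∈ P, y ∈ e)
  have hY : ∀ y, y ∈ Y ↔ (y ∉ X ∧ ∃ e ∈ P, y ∈ e) := fun y => by simp [Y]
  have hYadj : ∀ y ∈ Y, H.Adj y (φ y) := by
    intro y hy
    rw [hY] at hy
    obtain ⟨hyX, e, heP, z, rfl⟩ := hy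
    obtain ⟨h1, ⟨x, hx, hxX⟩, -⟩ := hPE _ heP
    apply φ_out y hyX
    rw [Sym2.mem_iff] at hx
    rcases hx with rfl | rfl
    · exact (hyX hxX).elim
    · exact ⟨⟨x, hxX⟩, h1⟩
  let Q : Finset (Sym2 W) := Y.image (fun y : W => s(y, (φ y : W)))
  have hQc : Q.card = Y.card := by
    apply Finset.card_image_of_injOn
    intro y hy y' hy' h
    rw [Finset.mem_coe, hY] at hy hy'
    simp only [Sym2.eq_iff] at h
    rcases h with h | h
    · exact h.1
    · exact (hy.1 (h.1 ▸ (φ y').2)).elim
  have hQB : Q ⊆ Bs := Finset.image_subset_image (Finset.subset_univ _)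
  have hdis : Disjoint P Q := by
    rw [Finset.disjoint_left]
    intro e he heQ
    exact (hPE e he).2.2 (hQB heQ)
  have hYP : Y.card ≤ P.card := by
    -- every label contains at most one such vertex
    have h1 : ∀ y ∈ Y, ∃ e, e ∈ P ∧ y ∈ e := by
      intro y hy
      rw [hY] at hy
      obtain ⟨-, e, he, hye⟩ := hy
      exact ⟨e, he, hye⟩
    have : Nonempty (Sym2 W) := ⟨e0⟩
    choose! f hf1 hf2 using h1
    refine Finset.card_le_card_of_injOn f hf1 ?_
    intro y hy y' hy' h
    by_contra hne
    have e1 := hf2 y hy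
    have e2 := hf2 y' hy'
    rw [← h] at e2
    obtain ⟨-, ⟨x, hx, hxX⟩, -⟩ := hPE _ (hf1 y hy)
    have h3 : f y = s(y, y') := (Sym2.mem_and_mem_iff hne).1 ⟨e1, e2⟩
    rw [h3, Sym2.mem_iff] at hx
    rw [Finset.mem_coe, hY] at hy hy'
    rcases hx with rfl | rfl
    · exact hy.1 hxX
    · exact hy'.1 hxX
  let B : SimpleGraph W := fromEdgeSet ((P ∪ Q : Finset (Sym2 W)) : Set (Sym2 W))
  have hPQ : ∀ e ∈ P ∪ Q, e ∈ H.edgeSet := by
    intro e he
    rcases Finset.mem_union.1 he with h | h
    · exact (hPE e h).1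
    · obtain ⟨y, hy, rfl⟩ := Finset.mem_image.1 h
      exact hYadj y hy
  have hBH : B ≤ H := by
    intro u v huv
    rw [fromEdgeSet_adj] at huv
    exact hPQ _ huv.1
  have hBE : B.edgeSet = ((P ∪ Q : Finset (Sym2 W)) : Set (Sym2 W)) := by
    rw [edgeSet_fromEdgeSet]
    ext e
    simp only [Set.mem_sdiff, Finset.mem_coe]
    refine ⟨fun h => h.1, fun h => ⟨h, ?_⟩⟩
    intro hdiag
    exact H.not_isDiag_of_mem_edgeSet (hPQ e h) hdiag
  have hBc : B.edgeSet.ncard = P.card + Y.card := by
    rw [hBE, Set.ncard_coe_finset, Finset.card_union_of_disjoint hdis, hQc]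
  let S : Finset W := (P.biUnion τ).image Subtype.val ∪ Y
  have hPb' : (P.biUnion τ).card ≤ P.card :=
    le_trans (le_of_eq (congrArg Finset.card (by ext x; simp only [Finset.mem_biUnion]))) hPb
  have hSc : S.card ≤ P.card + Y.card := by
    refine (Finset.card_union_le _ _).trans ?_
    have := (Finset.card_image_le (s := P.biUnion τ) (f := (Subtype.val : X → W)))
    omega
  have hSin : ∀ u v, B.Adj u v → u ∈ S := by
    intro u v huv
    have huv' : s(u, v) ∈ P ∪ Q := by
      have : s(u, v) ∈ B.edgeSet := huv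
      rw [hBE] at this
      exact this
    rcases Finset.mem_union.1 huv' with h | h
    · by_cases hu : u ∈ X
      · apply Finset.mem_union_left
        refine Finset.mem_image.2 ⟨⟨u, hu⟩, Finset.mem_biUnion.2 ⟨_, h, ?_⟩, rfl⟩
        rw [hτmk, φ_in u hu]
        exact Finset.mem_insert_self _ _
      · apply Finset.mem_union_right
        rw [hY]
        exact ⟨hu, _, h, Sym2.mem_mk_left _ _⟩
    · obtain ⟨y, hy, hyuv⟩ := Finset.mem_image.1 h
      have h2 : (φ y : W) ∈ S := by
        rw [hY] at hy
        obtain ⟨hyX, e, heP, z, rfl⟩ := hy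
        apply Finset.mem_union_left
        refine Finset.mem_image.2 ⟨φ y, Finset.mem_biUnion.2 ⟨_, heP, ?_⟩, rfl⟩
        rw [hτmk]
        exact Finset.mem_insert_self _ _
      rw [Sym2.eq_iff] at hyuv
      rcases hyuv with ⟨h3, h4⟩ | ⟨h3, h4⟩
      · rw [← h3]
        exact Finset.mem_union_right _ hy
      · rw [← h4]
        exact h2
  have hPpos := Finset.card_pos.2 hPne
  have hSne : S.Nonempty := by
    obtain ⟨e, he⟩ := hPne
    obtain ⟨h1, ⟨x, hx, hxX⟩, -⟩ := hPE e he
    obtain ⟨y, rfl⟩ := hx
    refine ⟨x, hSin x y ?_⟩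
    have : s(x, y) ∈ B.edgeSet := by
      rw [hBE]
      exact Finset.mem_union_left _ he
    exact this
  have hnac : ¬ B.IsAcyclic := by
    intro hac
    have := forest_card S.card B S le_rfl hac hSne hSin
    omega
  unfold SimpleGraph.IsAcyclic at hnac
  push Not at hnac
  obtain ⟨v, c, hc⟩ := hnac
  refine ⟨v, c.mapLe hBH, hc.mapLe hBH, ?_⟩
  rw [Walk.length_map]
  have h4 : c.length ≤ B.edgeSet.ncard := by
    have := Fintype.ofFinite B.edgeSet
    have h5 : c.length ≤ B.edgeFinset.card := hc.isTrail.length_le_card_edgeFinset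
    rw [← coe_edgeFinset, Set.ncard_coe_finset]
    exact h5
  omega

end ManyCycles

/-
TARGET L5. Plain proof. Induction on k (generalising H). For k+1: it suffices to find one cycle of length ≤ 4R in H, then delete its edges (H.deleteEdges; at most 4R edges lost; walks of the smaller graph map to H by mapLe, edges preserved) and use the induction hypothesis; the cycles found later use only the remaining edges.
Finding one cycle when n ≥ 1 and 2n ≤ |E_X|, E_X = edges of H touching X, |W| ≤ n, |X| d ≤ n < d^R (if n = 0 there are no vertices and no edges, contradiction with 4R ≤ |E_X|). Auxiliary labelled multigraph on X: labels are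
(i) the edges of H inside X, with their ends, and (ii) for every y ∉ X with neighbours x_1, …, x_r in X (enumerated), r ≥ 1, the labels (y, j), 1 ≤ j < r, with ends x_j, x_{j+1}. There are at least |E_X| - |W| ≥ n ≥ |X| d labels.
The starting module Pool/Agent/H268R3/BE/Cyc.lean has short_cycle: for a finite family τ i of 2-subsets of Ω, i ∈ I, with card Ω < d^R, card Ω * d ≤ |I|, I nonempty, there is P ⊆ I nonempty with |P| ≤ 2R and |⋃ τ i| ≤ |P|. Apply it with Ω = X.
Let B be the subgraph of H consisting of the edges of type (i) in P and of the edges y x_j, y x_{j+1} for (y, j) ∈ P. If t is the number of the y occurring, then B has at least |P| + t edges (for each y the path labels used: a labels give at least a+1 edges), at most 2|P| ≤ 4R edges, and at most |P| + t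
non-isolated vertices. A finite graph with at least as many edges as non-isolated vertices (and at least one edge) has a cycle (a forest has fewer edges than non-isolated vertices); its length is at most 4R. (Pool/Agent/H968R3/GraphLem.lean has not_acyclic and card_le_comp_add_edges.) Any other proof of the same statement is welcome.

Return the full file. You may put auxiliary lemmas before the target. Keep the statement of the target unchanged. RULES.md item 2 bans some words and characters in the file
(notation, syntax, macro, prefix, tactic, partial, meta, straight double quotes, guillemets), also partly in comments: please respect that.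
-/
theorem many_cycles {W : Type} [Finite W] (H : SimpleGraph W) (X : Set W) (n d R k : ℕ)
    (hW : Nat.card W ≤ n) (hX : X.ncard * d ≤ n) (hd : n < d ^ R) (hR : 1 ≤ R)
    (hE : 2 * n + 4 * R * k ≤ {e | e ∈ H.edgeSet ∧ ∃ x ∈ e, x ∈ X}.ncard) :
    ∃ (b : Fin k → W) (C : ∀ i, H.Walk (b i) (b i)), (∀ i, (C i).IsCycle) ∧
      ∀ i j, i ≠ j → ∀ e ∈ (C i).edges, e ∉ (C j).edges := by
  induction k generalizing H with
  | zero =>
    exact ⟨fun i => i.elim0, fun i => i.elim0, fun i => i.elim0, fun i => i.elim0⟩
  | succ k ih =>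
    classical
    obtain ⟨v, C, hC, hCl⟩ := ManyCycles.one_cycle H X n d R hW hX hd hR (by
      have : 0 ≤ 4 * R * (k + 1) := Nat.zero_le _
      omega) (by
      rw [← Set.ncard_pos (Set.toFinite _)]
      have : 0 < 4 * R * (k + 1) := by positivity
      omega)
    let D : Set (Sym2 W) := {e | e ∈ C.edges}
    have hDc : D.ncard ≤ 4 * R := by
      have h1 : D = (C.edges.toFinset : Set (Sym2 W)) := by
        ext e
        simp [D]
      rw [h1, Set.ncard_coe_finset]
      refine (List.toFinset_card_le _).trans ?_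
      rw [Walk.length_edges]
      exact hCl
    obtain ⟨b, C', hC', hdis⟩ := ih (H.deleteEdges D) (by
      have h1 : {e | e ∈ H.edgeSet ∧ ∃ x ∈ e, x ∈ X} ⊆
          {e | e ∈ (H.deleteEdges D).edgeSet ∧ ∃ x ∈ e, x ∈ X} ∪ D := by
        rintro e ⟨he, hx⟩
        by_cases heD : e ∈ D
        · exact Or.inr heD
        · left
          refine ⟨?_, hx⟩
          rw [edgeSet_deleteEdges]
          exact ⟨he, heD⟩
      have h2 := (Set.ncard_le_ncard h1 (Set.toFinite _)).trans (Set.ncard_union_le _ _)
      have h3 : 4 * R * (k + 1) = 4 * R * k + 4 * R := by ring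
      omega)
    have hle : H.deleteEdges D ≤ H := H.deleteEdges_le _
    have hnot : ∀ i, ∀ e ∈ (C' i).edges, e ∉ C.edges := by
      intro i e he heC
      have h1 := (C' i).edges_subset_edgeSet he
      rw [edgeSet_deleteEdges] at h1
      exact h1.2 heC
    refine ⟨Fin.cons v b, Fin.cons C (fun i => (C' i).mapLe hle), ?_, ?_⟩
    · intro i
      refine Fin.cases ?_ (fun i => ?_) i
      · exact hC
      · exact (hC' i).mapLe hle
    · intro i j
      refine Fin.cases ?_ (fun i => ?_) i
      · refine Fin.cases ?_ (fun j => ?_) j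
        · intro h
          exact (h rfl).elim
        · intro _ e he he'
          change e ∈ C.edges at he
          change e ∈ ((C' j).mapLe hle).edges at he'
          rw [Walk.edges_mapLe_eq_edges] at he'
          exact hnot j e he' he
      · refine Fin.cases ?_ (fun j => ?_) j
        · intro _ e he he'
          change e ∈ ((C' i).mapLe hle).edges at he
          change e ∈ C.edges at he'
          rw [Walk.edges_mapLe_eq_edges] at he
          exact hnot i e he he'
        · intro h e he he'
          change e ∈ ((C' i).mapLe hle).edges at he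
          change e ∈ ((C' j).mapLe hle).edges at he'
          rw [Walk.edges_mapLe_eq_edges] at he he'
          exact hdis i j (fun h' => h (by rw [h'])) e he he'

end Pool.Agent.Helper226_Obs

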