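import Pool.Agent.Helper226_Obs.Defs

set_option autoImplicit false

namespace Pool.Agent.Helper226_Obs

open SimpleGraph

section HostCount

open scoped Classical

variable {n : ℕ}

/-- vertices reached by `k` lazy steps -/
noncomputable def hcReach (G : SimpleGraph (Fin n)) (u : Fin n) : ℕ → Finset (Fin n)
  | 0 => {u}
  | k + 1 => hcReach G u k ∪ (hcReach G u k).biUnion (fun w => G.neighborFinset w)

theorem hcReach_card {G : SimpleGraph (Fin n)} {D : ℕ} (hD : ∀ v, G.degree v ≤ D) (u : Fin n)
    (k : ℕ) : (hcReach G u k).card ≤ (D + 1) ^ k := by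
  induction k with
  | zero => simp [hcReach]
  | succ k ih =>
    calc (hcReach G u (k + 1)).card
        ≤ (hcReach G u k).card + ((hcReach G u k).biUnion (fun w => G.neighborFinset w)).card :=
          Finset.card_union_le _ _
      _ ≤ (hcReach G u k).card + (hcReach G u k).card * D := by
          gcongr
          exact Finset.card_biUnion_le_card_mul _ _ _ (fun w _ => by simpa using hD w)
      _ = (hcReach G u k).card * (D + 1) := by ring
      _ ≤ (D + 1) ^ k * (D + 1) := Nat.mul_le_mul_right _ ih
      _ = _ := (pow_succ _ _).symm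

theorem hcReach_mono (G : SimpleGraph (Fin n)) (u : Fin n) : Monotone (hcReach G u) :=
  monotone_nat_of_le_succ (fun _ => Finset.subset_union_left)

theorem hcReach_walk (G : SimpleGraph (Fin n)) {u w v : Fin n} (p : G.Walk w v) :
    ∀ k, w ∈ hcReach G u k → v ∈ hcReach G u (k + p.length) := by
  induction p with
  | nil => intro k hk; simpa using hk
  | cons h p ih =>
    intro k hk
    have h1 := ih (k + 1) (by
      refine Finset.mem_union_right _ (Finset.mem_biUnion.2 ⟨_, hk, ?_⟩)
      simpa using h)
    rw [SimpleGraph.Walk.length_cons]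
    rwa [show k + (p.length + 1) = k + 1 + p.length by omega]

theorem hcReach_of_walk (G : SimpleGraph (Fin n)) {u v : Fin n} (p : G.Walk u v) {k : ℕ}
    (hk : p.length ≤ k) : v ∈ hcReach G u k := by
  have h := hcReach_walk G (u := u) p 0 (by simp [hcReach])
  rw [zero_add] at h
  exact hcReach_mono G u hk h

/-- splitting a walk at a dart -/
theorem hc_split {V : Type} {G : SimpleGraph V} {a b : V} (p : G.Walk a b) (d : G.Dart)
    (hd : d ∈ p.darts) : ∃ (q : G.Walk a d.fst) (r : G.Walk d.snd b),
      p.length = q.length + 1 + r.length ∧ p.edges = q.edges ++ d.edge :: r.edges := by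
  induction p with
  | nil => simp at hd
  | cons h p ih =>
    rw [SimpleGraph.Walk.darts_cons, List.mem_cons] at hd
    rcases hd with hd | hd
    · subst hd
      exact ⟨SimpleGraph.Walk.nil, p, by simp; omega, by simp⟩
    · obtain ⟨q, r, h1, h2⟩ := ih hd
      exact ⟨SimpleGraph.Walk.cons h q, r, by simp [h1]; omega, by simp [h2]⟩

/-- the edge `uv` on a short cycle gives a short walk from `u` to `v` avoiding it -/
theorem hc_cycle {V : Type} {G : SimpleGraph V} {u v : V} {w : V}
    (c : (G ⊔ SimpleGraph.edge u v).Walk w w) (hc : c.IsCycle) (he : s(u, v) ∈ c.edges) :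
    ∃ p : G.Walk u v, p.length < c.length := by
  obtain ⟨d, hd, hde⟩ := List.mem_map.1 he
  obtain ⟨q, r, h1, h2⟩ := hc_split c d hd
  have hnd := hc.isCircuit.isTrail.edges_nodup
  rw [h2] at hnd
  have hnot : s(u, v) ∉ (r.append q).edges := by
    rw [SimpleGraph.Walk.edges_append, List.mem_append]
    rw [List.nodup_append] at hnd
    obtain ⟨n1, n2, n3⟩ := hnd
    rw [List.nodup_cons] at n2
    rw [hde] at n2 n3
    rintro (h | h)
    · exact n2.1 h
    · exact n3 _ h _ List.mem_cons_self rfl
  have htr : ∀ e ∈ (r.append q).edges, e ∈ G.edgeSet := by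
    intro e he'
    have h3 := SimpleGraph.Walk.edges_subset_edgeSet _ he'
    have h4 : e ≠ s(u, v) := fun h => hnot (h ▸ he')
    induction e with
    | _ a b =>
      rw [SimpleGraph.mem_edgeSet, SimpleGraph.sup_adj] at h3
      rcases h3 with h3 | h3
      · exact h3
      · exfalso
        rw [SimpleGraph.edge_adj] at h3
        apply h4
        rw [Sym2.eq_iff]
        exact h3.1
  have hlen : ((r.append q).transfer G htr).length < c.length := by
    rw [SimpleGraph.Walk.length_transfer, SimpleGraph.Walk.length_append]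
    omega
  have hd' : s(d.fst, d.snd) = s(u, v) := hde
  rw [Sym2.eq_iff] at hd'
  rcases hd' with ⟨h3, h4⟩ | ⟨h3, h4⟩
  · refine ⟨(((r.append q).transfer G htr).reverse).copy h3 h4, ?_⟩
    rw [SimpleGraph.Walk.length_copy, SimpleGraph.Walk.length_reverse]
    exact hlen
  · refine ⟨((r.append q).transfer G htr).copy h4 h3, ?_⟩
    rw [SimpleGraph.Walk.length_copy]
    exact hlen

/-- the properties of the graphs which are counted -/
def hcP (D L t : ℕ) (G : SimpleGraph (Fin n)) : Prop :=
  G.edgeFinset.card = t ∧ (∀ v, G.degree v ≤ D) ∧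
    ∀ (v : Fin n) (c : G.Walk v v), c.IsCycle → L < c.length

/-- allowed pairs -/
noncomputable def hcAl (D L : ℕ) (G : SimpleGraph (Fin n)) : Finset (Fin n × Fin n) :=
  Finset.univ.filter (fun p => G.degree p.1 < D ∧ G.degree p.2 < D ∧
    p.2 ∉ hcReach G p.1 (L + 1))

theorem hc_add {D L t : ℕ} {G : SimpleGraph (Fin n)} (hG : hcP D L t G) {p : Fin n × Fin n}
    (hp : p ∈ hcAl D L G) : p.1 ≠ p.2 ∧ ¬ G.Adj p.1 p.2 ∧
      hcP D L (t + 1) (G ⊔ SimpleGraph.edge p.1 p.2) := by
  obtain ⟨u, v⟩ := p
  simp only [hcAl, Finset.mem_filter, Finset.mem_univ, true_and] at hp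
  obtain ⟨hu, hv, hr⟩ := hp
  obtain ⟨h1, h2, h3⟩ := hG
  have hne : u ≠ v := by
    rintro rfl
    exact hr (hcReach_of_walk G SimpleGraph.Walk.nil (by simp))
  have hna : ¬ G.Adj u v := fun h => hr (hcReach_of_walk G (SimpleGraph.Walk.cons h
    SimpleGraph.Walk.nil) (by simp))
  refine ⟨hne, hna, ?_, ?_, ?_⟩
  · have h4 := SimpleGraph.card_edgeFinset_sup_edge G hna hne
    rw [h1] at h4
    rw [← h4]
    exact congrArg Finset.card (by ext e; simp only [SimpleGraph.mem_edgeFinset])
  · intro w
    suffices h4 : (G ⊔ SimpleGraph.edge u v).degree w ≤ D by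
      refine le_trans (le_of_eq ?_) h4
      unfold SimpleGraph.degree
      exact congrArg Finset.card (by ext x; simp only [SimpleGraph.mem_neighborFinset])
    have hsub : (G ⊔ SimpleGraph.edge u v).neighborFinset w ⊆ G.neighborFinset w ∪
        ((if w = u then {v} else ∅) ∪ (if w = v then {u} else ∅)) := by
      intro x hx
      rw [SimpleGraph.mem_neighborFinset, SimpleGraph.sup_adj, SimpleGraph.edge_adj] at hx
      rw [Finset.mem_union, SimpleGraph.mem_neighborFinset]
      rcases hx with hx | ⟨⟨rfl, rfl⟩ | ⟨rfl, rfl⟩, _⟩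
      · exact Or.inl hx
      · right; simp
      · right; simp
    have hcard := Finset.card_le_card hsub
    rw [SimpleGraph.card_neighborFinset_eq_degree] at hcard
    refine hcard.trans ((Finset.card_union_le _ _).trans ?_)
    rw [SimpleGraph.card_neighborFinset_eq_degree]
    by_cases hwu : w = u
    · subst hwu
      rw [if_pos rfl, if_neg hne]
      simp
      omega
    · by_cases hwv : w = v
      · subst hwv
        rw [if_neg hwu, if_pos rfl]
        simp
        omega
      · rw [if_neg hwu, if_neg hwv]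
        simpa using h2 w
  · intro w c hc
    by_contra hlt
    push Not at hlt
    by_cases he : s(u, v) ∈ c.edges
    · obtain ⟨q, hq⟩ := hc_cycle c hc he
      exact hr (hcReach_of_walk G q (by omega))
    · have htr : ∀ e ∈ c.edges, e ∈ G.edgeSet := by
        intro e he'
        have h5 := SimpleGraph.Walk.edges_subset_edgeSet _ he'
        have h4 : e ≠ s(u, v) := fun h => he (h ▸ he')
        induction e with
        | _ a b =>
          rw [SimpleGraph.mem_edgeSet, SimpleGraph.sup_adj] at h5
          rcases h5 with h5 | h5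
          · exact h5
          · exfalso
            rw [SimpleGraph.edge_adj] at h5
            apply h4
            rw [Sym2.eq_iff]
            exact h5.1
      have h6 := h3 w (c.transfer G htr) (hc.transfer htr)
      rw [SimpleGraph.Walk.length_transfer] at h6
      omega

/-- many allowed pairs -/
theorem hc_many {M L t : ℕ} (hM : 1 ≤ M) {G : SimpleGraph (Fin n)} (hG : hcP (4 * M) L t G)
    (ht : t < M * n) (hn : 4 * (4 * M + 1) ^ (L + 1) ≤ n) : n ^ 2 ≤ 8 * (hcAl (4 * M) L G).card := by
  obtain ⟨h1, h2, h3⟩ := hG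
  set D := 4 * M with hD
  set R := (D + 1) ^ (L + 1) with hR
  set B : Finset (Fin n) := Finset.univ.filter (fun v => G.degree v < D) with hB
  have hBc : n ≤ 2 * B.card := by
    have h4 : D * (Finset.univ.filter (fun v => ¬ G.degree v < D)).card ≤ 2 * t := by
      rw [← h1, ← G.sum_degrees_eq_twice_card_edges]
      calc D * (Finset.univ.filter (fun v => ¬ G.degree v < D)).card
          = ∑ v ∈ Finset.univ.filter (fun v => ¬ G.degree v < D), D := by
            rw [Finset.sum_const, smul_eq_mul, mul_comm]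
        _ ≤ ∑ v ∈ Finset.univ.filter (fun v => ¬ G.degree v < D), G.degree v := by
            refine Finset.sum_le_sum fun v hv => ?_
            simpa using (Finset.mem_filter.1 hv).2
        _ ≤ ∑ v, G.degree v := Finset.sum_le_sum_of_subset (Finset.filter_subset _ _)
    have h5 := Finset.card_filter_add_card_filter_not (s := (Finset.univ : Finset (Fin n)))
      (fun v => G.degree v < D)
    rw [Finset.card_univ, Fintype.card_fin] at h5
    have h6 : B.card + (Finset.univ.filter (fun v => ¬ G.degree v < D)).card = n := h5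
    have h7 : 4 * M * (Finset.univ.filter (fun v => ¬ G.degree v < D)).card ≤ 2 * (M * n) :=
      h4.trans (by omega)
    have h8 : M * (2 * (Finset.univ.filter (fun v => ¬ G.degree v < D)).card) ≤ M * n := by
      have e1 : 4 * M * (Finset.univ.filter (fun v => ¬ G.degree v < D)).card =
        2 * (M * (2 * (Finset.univ.filter (fun v => ¬ G.degree v < D)).card)) := by ring
      rw [e1] at h7
      omega
    have h9 := Nat.le_of_mul_le_mul_left h8 (by omega)
    omega
  have hcount : B.card * (B.card - R) ≤ (hcAl D L G).card := by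
    have h4 : (B.biUnion (fun u => (B \ hcReach G u (L + 1)).map
        ⟨fun v => (u, v), fun a b h => (Prod.ext_iff.1 h).2⟩)) ⊆ hcAl D L G := by
      intro p hp
      simp only [Finset.mem_biUnion, Finset.mem_map, Finset.mem_sdiff] at hp
      obtain ⟨u, hu, v, ⟨hv, hv'⟩, rfl⟩ := hp
      rw [hB, Finset.mem_filter] at hu hv
      simp only [hcAl, Finset.mem_filter, Finset.mem_univ, true_and]
      exact ⟨hu.2, hv.2, hv'⟩
    refine le_trans ?_ (Finset.card_le_card h4)
    rw [Finset.card_biUnion]
    · rw [← smul_eq_mul, ← Finset.sum_const]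
      refine Finset.sum_le_sum fun u _ => ?_
      rw [Finset.card_map]
      have h5 := Finset.le_card_sdiff (hcReach G u (L + 1)) B
      have h6 := hcReach_card h2 u (L + 1)
      omega
    · intro u _ u' _ huu
      refine Finset.disjoint_left.2 ?_
      intro p hp hp'
      obtain ⟨v, _, h⟩ := Finset.mem_map.1 hp
      obtain ⟨v', _, h'⟩ := Finset.mem_map.1 hp'
      have e1 : p.1 = u := by rw [← h]; rfl
      have e2 : p.1 = u' := by rw [← h']; rfl
      exact huu (e1.symm.trans e2)
  have h10 : n ≤ 4 * (B.card - R) := by omega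
  calc n ^ 2 = n * n := sq n
    _ ≤ (2 * B.card) * (4 * (B.card - R)) := Nat.mul_le_mul hBc h10
    _ = 8 * (B.card * (B.card - R)) := by ring
    _ ≤ _ := Nat.mul_le_mul_left _ hcount

/-- the darts as pairs -/
noncomputable def hcDt (G : SimpleGraph (Fin n)) : Finset (Fin n × Fin n) :=
  Finset.univ.filter (fun p => G.Adj p.1 p.2)

theorem mem_hcDt {G : SimpleGraph (Fin n)} {p : Fin n × Fin n} : p ∈ hcDt G ↔ G.Adj p.1 p.2 := by
  simp [hcDt]

theorem card_hcDt (G : SimpleGraph (Fin n)) : (hcDt G).card = 2 * G.edgeFinset.card := by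
  rw [G.two_mul_card_edgeFinset]
  rfl

/-- the finite set of graphs which are counted -/
noncomputable def hcA (n D L t : ℕ) : Finset (SimpleGraph (Fin n)) :=
  Finset.univ.filter (fun G => hcP D L t G)

theorem hc_recover {G G' : SimpleGraph (Fin n)} {u v : Fin n} (h : ¬ G.Adj u v)
    (h' : ¬ G'.Adj u v) (he : G ⊔ SimpleGraph.edge u v = G' ⊔ SimpleGraph.edge u v) : G = G' := by
  have key : ∀ (G : SimpleGraph (Fin n)), ¬ G.Adj u v → ∀ a b,
      (G.Adj a b ↔ (G ⊔ SimpleGraph.edge u v).Adj a b ∧
        ¬ ((a = u ∧ b = v) ∨ (a = v ∧ b = u))) := by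
    intro G h a b
    rw [SimpleGraph.sup_adj, SimpleGraph.edge_adj]
    constructor
    · intro hab
      refine ⟨Or.inl hab, ?_⟩
      rintro (⟨rfl, rfl⟩ | ⟨rfl, rfl⟩)
      · exact h hab
      · exact h hab.symm
    · rintro ⟨h1 | h1, h2⟩
      · exact h1
      · exact absurd h1.1 h2
  ext a b
  rw [key G h, key G' h', he]

theorem hc_step {M L t : ℕ} (hM : 1 ≤ M) (ht : t < M * n)
    (hn : 4 * (4 * M + 1) ^ (L + 1) ≤ n) :
    (hcA n (4 * M) L t).card * n ^ 2 ≤ 16 * ((t + 1) * (hcA n (4 * M) L (t + 1)).card) := by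
  set D := 4 * M with hD
  have h1 : ((hcA n D L t).sigma (fun G => hcAl D L G)).card ≤
      ((hcA n D L (t + 1)).sigma (fun G => hcDt G)).card := by
    refine Finset.card_le_card_of_injOn
      (fun x => (⟨x.1 ⊔ SimpleGraph.edge x.2.1 x.2.2, x.2⟩ :
        Σ _ : SimpleGraph (Fin n), Fin n × Fin n)) ?_ ?_
    · rintro ⟨G, p⟩ hx
      have hx' := Finset.mem_sigma.1 (Finset.mem_coe.1 hx)
      have hG : hcP D L t G := (Finset.mem_filter.1 hx'.1).2
      obtain ⟨a1, a2, a3⟩ := hc_add hG hx'.2
      refine Finset.mem_coe.2 (Finset.mem_sigma.2 ⟨Finset.mem_filter.2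
        ⟨Finset.mem_univ _, a3⟩, mem_hcDt.2 ?_⟩)
      change (G ⊔ SimpleGraph.edge p.1 p.2).Adj p.1 p.2
      rw [SimpleGraph.sup_adj, SimpleGraph.edge_adj]
      exact Or.inr ⟨Or.inl ⟨rfl, rfl⟩, a1⟩
    · rintro ⟨G, p⟩ hx ⟨G', p'⟩ hx' heq
      have hx1 := Finset.mem_sigma.1 (Finset.mem_coe.1 hx)
      have hx2 := Finset.mem_sigma.1 (Finset.mem_coe.1 hx')
      have hG : hcP D L t G := (Finset.mem_filter.1 hx1.1).2
      have hG' : hcP D L t G' := (Finset.mem_filter.1 hx2.1).2
      obtain ⟨_, a2, _⟩ := hc_add hG hx1.2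
      obtain ⟨_, b2, _⟩ := hc_add hG' hx2.2
      simp only [Sigma.mk.injEq, heq_eq_eq] at heq
      obtain ⟨e1, e2⟩ := heq
      subst e2
      have := hc_recover a2 b2 e1
      rw [this]
  rw [Finset.card_sigma, Finset.card_sigma] at h1
  have h2 : ∑ G ∈ hcA n D L (t + 1), (hcDt G).card =
      (hcA n D L (t + 1)).card * (2 * (t + 1)) := by
    rw [← smul_eq_mul, ← Finset.sum_const]
    refine Finset.sum_congr rfl fun G hG => ?_
    have hG' : hcP D L (t + 1) G := (Finset.mem_filter.1 hG).2
    rw [card_hcDt, hG'.1]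
  have h4 : (hcA n D L t).card * n ^ 2 ≤ ∑ G ∈ hcA n D L t, 8 * (hcAl D L G).card := by
    rw [← smul_eq_mul, ← Finset.sum_const]
    refine Finset.sum_le_sum fun G hG => ?_
    have hG' : hcP D L t G := (Finset.mem_filter.1 hG).2
    exact hc_many hM hG' ht hn
  rw [← Finset.mul_sum] at h4
  calc (hcA n D L t).card * n ^ 2 ≤ 8 * ∑ G ∈ hcA n D L t, (hcAl D L G).card := h4
    _ ≤ 8 * ((hcA n D L (t + 1)).card * (2 * (t + 1))) := by
        rw [← h2]
        exact Nat.mul_le_mul_left _ h1
    _ = _ := by ring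

theorem hc_zero (n D L : ℕ) : 1 ≤ (hcA n D L 0).card := by
  rw [Nat.one_le_iff_ne_zero, ← Nat.pos_iff_ne_zero, Finset.card_pos]
  refine ⟨⊥, Finset.mem_filter.2 ⟨Finset.mem_univ _, ?_, ?_, ?_⟩⟩
  · simp
  · intro v
    simp
  · intro v c hc
    exfalso
    cases c with
    | nil => exact hc.ne_nil rfl
    | cons h p => exact h

end HostCount

/-
TARGET L6. Plain proof. Put D = 16 M. Let A t be the set of graphs on Fin n with exactly t edges, all degrees ≤ D, all cycles longer than L. Claim: for n ≥ n₀ and t < M n: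
|A t| * (n^2/16) ≤ (t+1) * |A (t+1)|. Double counting of the pairs (G, uv), G ∈ A t, uv a non-edge with G + uv ∈ A (t+1): every graph in A (t+1) arises from at most t+1 such pairs. For G ∈ A t the pair uv is allowed if u ≠ v, both degrees are < D
and there is no walk of length < L from u to v (then a cycle of G + uv through uv has length ≥ L + 1: removing the edge uv from the cycle leaves a walk of length ≥ L). At most 2t/D ≤ n/8 vertices have degree D (degree sum 2t), so there are at least (7n/8)(7n/8 - 1)/2 unordered pairs of distinct vertices with degrees < D, and at most n (D+1)^L pairs are joined by a walk of length < L. For n large this leaves at least n^2/16 pairs. A 0 contains the empty graph. Multiply for t = 0, …, m-1: (n^2/16)^m ≤ m! |A m|, and A m is a subset of the set in the statement.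

Return the full file. You may put auxiliary lemmas before the target. Keep the statement of the target unchanged. RULES.md item 2 bans some words and characters in the file
(notation, syntax, macro, prefix, tactic, partial, meta, straight double quotes, guillemets), also partly in comments: please respect that.
-/
theorem host_count (M L : ℕ) (hM : 1 ≤ M) : ∃ n₀ : ℕ, ∀ n ≥ n₀, ∀ m ≤ M * n,
    ((n : ℝ) ^ 2 / 16) ^ m ≤ (m.factorial : ℝ) *
      (Set.ncard {G : SimpleGraph (Fin n) | Nat.card G.edgeSet = m ∧
        ∀ (v : Fin n) (c : G.Walk v v), c.IsCycle → L < c.length} : ℝ) := by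
  classical
  refine ⟨4 * (4 * M + 1) ^ (L + 1), fun n hn m hm => ?_⟩
  have key : ∀ m ≤ M * n, ((n : ℝ) ^ 2 / 16) ^ m ≤
      (m.factorial : ℝ) * ((hcA n (4 * M) L m).card : ℝ) := by
    intro m
    induction m with
    | zero =>
      intro _
      have h := hc_zero n (4 * M) L
      have h' : (1 : ℝ) ≤ ((hcA n (4 * M) L 0).card : ℝ) := by exact_mod_cast h
      simpa using h'
    | succ m ih =>
      intro hm
      have h1 := ih (by omega)
      have h2 := hc_step (n := n) (M := M) (L := L) (t := m) hM (by omega) hn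
      have h3 : ((hcA n (4 * M) L m).card : ℝ) * (n : ℝ) ^ 2 ≤
          16 * (((m : ℝ) + 1) * ((hcA n (4 * M) L (m + 1)).card : ℝ)) := by exact_mod_cast h2
      calc ((n : ℝ) ^ 2 / 16) ^ (m + 1) = ((n : ℝ) ^ 2 / 16) ^ m * ((n : ℝ) ^ 2 / 16) := pow_succ _ _
        _ ≤ ((m.factorial : ℝ) * ((hcA n (4 * M) L m).card : ℝ)) * ((n : ℝ) ^ 2 / 16) :=
            mul_le_mul_of_nonneg_right h1 (by positivity)
        _ = (m.factorial : ℝ) * (((hcA n (4 * M) L m).card : ℝ) * (n : ℝ) ^ 2) / 16 := by ring
        _ ≤ (m.factorial : ℝ) * (16 * (((m : ℝ) + 1) *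
              ((hcA n (4 * M) L (m + 1)).card : ℝ))) / 16 := by gcongr
        _ = ((m + 1).factorial : ℝ) * ((hcA n (4 * M) L (m + 1)).card : ℝ) := by
            rw [Nat.factorial_succ]
            push_cast
            ring
  refine (key m hm).trans ?_
  refine mul_le_mul_of_nonneg_left ?_ (by positivity)
  rw [← Set.ncard_coe_finset]
  have hsub : ((hcA n (4 * M) L m : Finset (SimpleGraph (Fin n))) : Set (SimpleGraph (Fin n))) ⊆
      {G : SimpleGraph (Fin n) | Nat.card G.edgeSet = m ∧
        ∀ (v : Fin n) (c : G.Walk v v), c.IsCycle → L < c.length} := by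
    intro G hG
    have hG' : hcP (4 * M) L m G := (Finset.mem_filter.1 (Finset.mem_coe.1 hG)).2
    refine ⟨?_, hG'.2.2⟩
    rw [Nat.card_eq_fintype_card, ← hG'.1, SimpleGraph.edgeFinset_card]
  exact_mod_cast Set.ncard_le_ncard hsub (Set.toFinite _)

end Pool.Agent.Helper226_Obs
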