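import Pool.Agent.Helper226_Obs.Defs

set_option autoImplicit false

namespace Pool.Agent.Helper226_Obs

open SimpleGraph

theorem ec_code {β : Type} [DecidableEq β] (R : Finset β) (a : ℕ) (h : R.card ≤ a) :
    ∃ ρ : Fin a → Option β, ∀ e, (∃ i, ρ i = some e) ↔ e ∈ R := by
  refine ⟨fun i => if h : (i : ℕ) < R.card then some (R.equivFin.symm ⟨i, h⟩ : β) else none, ?_⟩
  intro e
  constructor
  · rintro ⟨i, hi⟩
    by_cases hiR : (i : ℕ) < R.card
    · simp only [hiR, dif_pos, Option.some.injEq] at hi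
      rw [← hi]
      exact (R.equivFin.symm ⟨i, hiR⟩).2
    · simp [hiR] at hi
  · intro he
    refine ⟨⟨(R.equivFin ⟨e, he⟩ : ℕ), (R.equivFin ⟨e, he⟩).2.trans_le h⟩, ?_⟩
    have h1 : ((R.equivFin ⟨e, he⟩ : Fin R.card) : ℕ) < R.card := (R.equivFin ⟨e, he⟩).2
    simp only [h1, dif_pos, Option.some.injEq]
    simp

/-- The pairs of vertices available for an edge of `H`. -/
def ecA {h n : ℕ} (φ : Fin n → Option (Fin h)) (e : Sym2 (Fin h)) : Set (Sym2 (Fin n)) :=
  {f | ∃ x y u v, e = s(x, y) ∧ φ u = some x ∧ φ v = some y ∧ f = s(u, v)}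

theorem ecA_card {h n : ℕ} (φ : Fin n → Option (Fin h)) (x y : Fin h) :
    (ecA φ s(x, y)).ncard ≤ {v | φ v = some x}.ncard * {v | φ v = some y}.ncard := by
  classical
  have h1 : ecA φ s(x, y) ⊆ (fun p : Fin n × Fin n => s(p.1, p.2)) '' ({v | φ v = some x} ×ˢ {v | φ v = some y}) := by
    rintro f ⟨x', y', u, v, h1, h2, h3, rfl⟩
    rw [Sym2.eq_iff] at h1
    rcases h1 with ⟨rfl, rfl⟩ | ⟨rfl, rfl⟩
    · exact ⟨(u, v), ⟨h2, h3⟩, rfl⟩
    · exact ⟨(v, u), ⟨h3, h2⟩, Sym2.eq_swap⟩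
  calc (ecA φ s(x, y)).ncard ≤ _ := Set.ncard_le_ncard h1 (Set.toFinite _)
    _ ≤ ({v | φ v = some x} ×ˢ {v | φ v = some y}).ncard := Set.ncard_image_le (Set.toFinite _)
    _ = _ := Set.ncard_prod

theorem ecA_card_light {h n : ℕ} (φ : Fin n → Option (Fin h)) (T : ℕ) (e : Sym2 (Fin h))
    (he : ¬ ∃ x ∈ e, T < {v | φ v = some x}.ncard) : (ecA φ e).ncard ≤ T ^ 2 := by
  induction e using Sym2.ind with
  | _ x y =>
    refine (ecA_card φ x y).trans ?_
    push Not at he
    rw [sq]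
    exact Nat.mul_le_mul (he x (Sym2.mem_mk_left x y)) (he y (Sym2.mem_mk_right x y))

theorem ecA_card_all {h n : ℕ} (φ : Fin n → Option (Fin h)) (e : Sym2 (Fin h)) :
    (ecA φ e).ncard ≤ n ^ 2 := by
  induction e using Sym2.ind with
  | _ x y =>
    refine (ecA_card φ x y).trans ?_
    rw [sq]
    have h1 : ∀ s : Set (Fin n), s.ncard ≤ n := by
      intro s
      have := Set.ncard_le_ncard (Set.subset_univ s) (Set.toFinite _)
      rwa [Set.ncard_univ, Nat.card_fin] at this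
    exact Nat.mul_le_mul (h1 _) (h1 _)

open Classical in
/-- The choice functions for the edges. -/
noncomputable def ecP {h n : ℕ} (HG : SimpleGraph (Fin h)) (φ : Fin n → Option (Fin h)) :
    Finset (HG.edgeSet → Sym2 (Fin n)) :=
  Fintype.piFinset (fun e => (ecA φ e.1).toFinset)

open Classical in
theorem ecP_card {h n m b T : ℕ} (hn : 1 ≤ n) (hT : 1 ≤ T) (HG : SimpleGraph (Fin h))
    (φ : Fin n → Option (Fin h)) (hm : Nat.card HG.edgeSet ≤ m)
    (hb : {e | e ∈ HG.edgeSet ∧ ∃ x ∈ e, T < {v | φ v = some x}.ncard}.ncard ≤ b) :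
    (ecP HG φ).card ≤ (n ^ 2) ^ b * (T ^ 2) ^ m := by
  rw [ecP, Fintype.card_piFinset]
  have h1 : ∀ e : HG.edgeSet, ((ecA φ e.1).toFinset).card ≤
      if (∃ x ∈ e.1, T < {v | φ v = some x}.ncard) then n ^ 2 else T ^ 2 := by
    intro e
    rw [← Set.ncard_eq_toFinset_card']
    split_ifs with he
    · exact ecA_card_all φ e.1
    · exact ecA_card_light φ T e.1 he
  refine (Finset.prod_le_prod' (fun e _ => h1 e)).trans ?_
  rw [Finset.prod_ite, Finset.prod_const, Finset.prod_const]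
  apply Nat.mul_le_mul
  · apply Nat.pow_le_pow_right (by positivity)
    refine le_trans ?_ hb
    rw [← Finset.card_map (Function.Embedding.subtype _), ← Set.ncard_coe_finset]
    apply Set.ncard_le_ncard _ (Set.toFinite _)
    intro e he
    simp only [Finset.coe_map, Function.Embedding.subtype_apply, Set.mem_image, Finset.mem_coe, Finset.mem_filter,
      Finset.mem_univ, true_and] at he
    obtain ⟨e', h2, rfl⟩ := he
    exact ⟨e'.2, h2⟩
  · apply Nat.pow_le_pow_right (by positivity)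
    refine (Finset.card_filter_le _ _).trans ?_
    rw [Finset.card_univ, ← Nat.card_eq_fintype_card]
    exact hm

theorem ec_edges_inj {h n : ℕ} (φ : Fin n → Option (Fin h)) {e e' : Sym2 (Fin h)} {f : Sym2 (Fin n)}
    (h1 : f ∈ ecA φ e) (h2 : f ∈ ecA φ e') : e = e' := by
  obtain ⟨x, y, u, v, rfl, hu, hv, rfl⟩ := h1
  obtain ⟨x', y', u', v', rfl, hu', hv', h3⟩ := h2
  rw [Sym2.eq_iff] at h3 ⊢
  rcases h3 with ⟨rfl, rfl⟩ | ⟨rfl, rfl⟩
  · left
    rw [hu] at hu'; rw [hv] at hv'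
    exact ⟨Option.some.inj hu', Option.some.inj hv'⟩
  · right
    rw [hu] at hv'; rw [hv] at hu'
    exact ⟨Option.some.inj hv', Option.some.inj hu'⟩

theorem encode_count (n m a b T : ℕ) (hn : 1 ≤ n) (hT : 1 ≤ T) (H : FinGraph) :
    Set.ncard {G : SimpleGraph (Fin n) | Nat.card G.edgeSet = m ∧
      m ≤ Nat.card H.2.edgeSet + a ∧
      ∃ B : Fin H.1 → Set (Fin n), (∀ x, (B x).Nonempty) ∧
        (∀ x y, x ≠ y → Disjoint (B x) (B y)) ∧
        (∀ x y, H.2.Adj x y → ∃ u ∈ B x, ∃ v ∈ B y, G.Adj u v) ∧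
        {e | e ∈ H.2.edgeSet ∧ ∃ x ∈ e, T < (B x).ncard}.ncard ≤ b} ≤
      (n + 1) ^ n * (n ^ 2) ^ b * (T ^ 2) ^ m * (n ^ 2 + 1) ^ a := by
  classical
  obtain ⟨h, HG⟩ := H
  set S := {G : SimpleGraph (Fin n) | Nat.card G.edgeSet = m ∧
      m ≤ Nat.card (Sigma.snd (⟨h, HG⟩ : FinGraph)).edgeSet + a ∧
      ∃ B : Fin (Sigma.fst (⟨h, HG⟩ : FinGraph)) → Set (Fin n), (∀ x, (B x).Nonempty) ∧
        (∀ x y, x ≠ y → Disjoint (B x) (B y)) ∧
        (∀ x y, (Sigma.snd (⟨h, HG⟩ : FinGraph)).Adj x y → ∃ u ∈ B x, ∃ v ∈ B y, G.Adj u v) ∧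
        {e | e ∈ (Sigma.snd (⟨h, HG⟩ : FinGraph)).edgeSet ∧ ∃ x ∈ e, T < (B x).ncard}.ncard ≤ b} with hS
  -- decoding data of a member
  have hdec : ∀ G ∈ S, ∃ φ : Fin n → Option (Fin h), ∃ r : HG.edgeSet → Sym2 (Fin n),
      ∃ ρ : Fin a → Option (Sym2 (Fin n)), h ≤ n ∧ Nat.card HG.edgeSet ≤ m ∧
        {e | e ∈ HG.edgeSet ∧ ∃ x ∈ e, T < {v | φ v = some x}.ncard}.ncard ≤ b ∧
        (∀ e, r e ∈ ecA φ e.1) ∧
        G = SimpleGraph.fromEdgeSet (Set.range r ∪ {e | ∃ i, ρ i = some e}) := by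
    rintro G ⟨hGm, hma, B, hBne, hBd, hBe, hBb⟩
    simp only at hma B hBne hBd hBe hBb
    let φ : Fin n → Option (Fin h) := fun v => if hv : ∃ x, v ∈ B x then some hv.choose else none
    have hφ : ∀ v x, φ v = some x ↔ v ∈ B x := by
      intro v x
      constructor
      · intro hv
        by_cases hvx : ∃ x, v ∈ B x
        · simp only [φ, hvx, dif_pos, Option.some.injEq] at hv
          rw [← hv]; exact hvx.choose_spec
        · simp [φ, hvx] at hv
      · intro hv
        have hvx : ∃ x, v ∈ B x := ⟨x, hv⟩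
        have : hvx.choose = x := by
          by_contra hne
          exact (Set.disjoint_left.1 (hBd _ _ hne) hvx.choose_spec) hv
        simp only [φ, hvx, dif_pos, this]
    have hBφ : ∀ x, {v | φ v = some x} = B x := by
      intro x; ext v; exact hφ v x
    have hr : ∀ e : HG.edgeSet, ∃ f ∈ G.edgeSet, f ∈ ecA φ e.1 := by
      rintro ⟨e, he⟩
      induction e using Sym2.ind with
      | _ x y =>
        obtain ⟨u, hu, v, hv, huv⟩ := hBe x y he
        exact ⟨s(u, v), huv, x, y, u, v, rfl, (hφ u x).2 hu, (hφ v y).2 hv, rfl⟩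
    choose r hrG hrA using hr
    have hrinj : Function.Injective r := by
      intro e e' hee
      apply Subtype.ext
      exact ec_edges_inj φ (hrA e) (by rw [hee]; exact hrA e')
    have hrange : (Set.range r).ncard = Nat.card HG.edgeSet := by
      rw [← Set.image_univ, Set.ncard_image_of_injective _ hrinj, Set.ncard_univ]
    have hsub : Set.range r ⊆ G.edgeSet := by
      rintro _ ⟨e, rfl⟩
      exact hrG e
    have hGm' : G.edgeSet.ncard = m := hGm
    have hRcard : (G.edgeSet \ Set.range r).ncard ≤ a := by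
      rw [Set.ncard_sdiff hsub (Set.toFinite _), hrange, hGm']
      omega
    have hRcard' : (G.edgeSet \ Set.range r).toFinset.card ≤ a := by
      rwa [← Set.ncard_eq_toFinset_card']
    obtain ⟨ρ, hρ⟩ := ec_code _ a hRcard'
    refine ⟨φ, r, ρ, ?_, ?_, ?_, hrA, ?_⟩
    · -- h ≤ n
      choose w hw using hBne
      have hwinj : Function.Injective w := by
        intro x y hxy
        by_contra hne
        exact (Set.disjoint_left.1 (hBd x y hne) (hw x)) (by rw [hxy]; exact hw y)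
      have := Fintype.card_le_of_injective w hwinj
      simpa using this
    · rw [← hrange, ← hGm']
      exact Set.ncard_le_ncard hsub (Set.toFinite _)
    · simp only [hBφ]
      exact hBb
    · have : Set.range r ∪ {e | ∃ i, ρ i = some e} = G.edgeSet := by
        have h2 : {e | ∃ i, ρ i = some e} = G.edgeSet \ Set.range r := by
          ext e
          rw [Set.mem_ofPred_eq, hρ e, Set.mem_toFinset]
        rw [h2, Set.union_sdiff_cancel hsub]
      rw [this, SimpleGraph.fromEdgeSet_edgeSet]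
  rcases S.eq_empty_or_nonempty with hS0 | ⟨G0, hG0⟩
  · rw [hS0, Set.ncard_empty]
    exact Nat.zero_le _
  obtain ⟨_, _, _, hhn, hHm, _⟩ := hdec G0 hG0
  -- the code space
  let good : Finset (Fin n → Option (Fin h)) := Finset.univ.filter (fun φ =>
    {e | e ∈ HG.edgeSet ∧ ∃ x ∈ e, T < {v | φ v = some x}.ncard}.ncard ≤ b)
  let D : Finset (Σ _ : (Fin n → Option (Fin h)), (HG.edgeSet → Sym2 (Fin n)) × (Fin a → Option (Sym2 (Fin n)))) :=
    good.sigma (fun φ => ecP HG φ ×ˢ Finset.univ)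
  let F : (Σ _ : (Fin n → Option (Fin h)), (HG.edgeSet → Sym2 (Fin n)) × (Fin a → Option (Sym2 (Fin n)))) →
      SimpleGraph (Fin n) := fun d =>
    SimpleGraph.fromEdgeSet (Set.range d.2.1 ∪ {e | ∃ i, d.2.2 i = some e})
  have hsubS : S ⊆ F '' (D : Set _) := by
    intro G hG
    obtain ⟨φ, r, ρ, _, _, h3, h4, h5⟩ := hdec G hG
    refine ⟨⟨φ, r, ρ⟩, ?_, h5.symm⟩
    rw [Finset.mem_coe, Finset.mem_sigma]
    refine ⟨?_, ?_⟩
    · rw [Finset.mem_filter]
      exact ⟨Finset.mem_univ _, h3⟩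
    · rw [Finset.mem_product]
      refine ⟨?_, Finset.mem_univ _⟩
      rw [ecP, Fintype.mem_piFinset]
      intro e
      rw [Set.mem_toFinset]
      exact h4 e
  have hsym : Fintype.card (Sym2 (Fin n)) ≤ n ^ 2 := by
    have := Fintype.card_le_of_surjective (fun p : Fin n × Fin n => s(p.1, p.2)) (by
      intro e
      induction e using Sym2.ind with
      | _ x y => exact ⟨(x, y), rfl⟩)
    rw [Fintype.card_prod, Fintype.card_fin] at this
    rw [sq]; exact this
  calc S.ncard ≤ (F '' (D : Set _)).ncard := Set.ncard_le_ncard hsubS (Set.toFinite _)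
    _ ≤ D.card := (Set.ncard_image_le (Set.toFinite _)).trans_eq (Set.ncard_coe_finset D)
    _ = ∑ φ ∈ good, (ecP HG φ ×ˢ (Finset.univ : Finset (Fin a → Option (Sym2 (Fin n))))).card :=
        Finset.card_sigma _ _
    _ ≤ ∑ φ ∈ good, ((n ^ 2) ^ b * (T ^ 2) ^ m) * (n ^ 2 + 1) ^ a := by
        apply Finset.sum_le_sum
        intro φ hφ
        rw [Finset.card_product]
        apply Nat.mul_le_mul
        · exact ecP_card hn hT HG φ hHm (Finset.mem_filter.1 hφ).2
        · rw [Finset.card_univ, Fintype.card_fun, Fintype.card_option, Fintype.card_fin]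
          exact Nat.pow_le_pow_left (by omega) a
    _ = good.card * (((n ^ 2) ^ b * (T ^ 2) ^ m) * (n ^ 2 + 1) ^ a) := by
        rw [Finset.sum_const, smul_eq_mul]
    _ ≤ (n + 1) ^ n * (((n ^ 2) ^ b * (T ^ 2) ^ m) * (n ^ 2 + 1) ^ a) := by
        apply Nat.mul_le_mul_right
        refine (Finset.card_filter_le _ _).trans ?_
        rw [Finset.card_univ, Fintype.card_fun, Fintype.card_option, Fintype.card_fin, Fintype.card_fin]
        exact Nat.pow_le_pow_left (by omega) n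
    _ = (n + 1) ^ n * (n ^ 2) ^ b * (T ^ 2) ^ m * (n ^ 2 + 1) ^ a := by ring

end Pool.Agent.Helper226_Obs
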