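import Pool.Agent.Helper226_Obs.L1
import Pool.Agent.Helper226_Obs.L2
import Pool.Agent.Helper226_Obs.L3
import Pool.Agent.Helper226_Obs.L4
import Pool.Agent.Helper226_Obs.L5
import Pool.Agent.Helper226_Obs.L6
import Pool.Agent.Helper226_Obs.L7
import Pool.Agent.Helper226_Obs.Analysis

set_option autoImplicit false

/-! Assembly: the superexponential lower bound. -/

namespace Pool.Agent.Helper226_Obs

open SimpleGraph

/-- sum of sizes of disjoint sets -/
theorem mn_sum_le {h n : ℕ} (B : Fin h → Set (Fin n)) (hd : ∀ x y, x ≠ y → Disjoint (B x) (B y))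
    (s : Finset (Fin h)) : ∑ x ∈ s, (B x).ncard ≤ n := by
  classical
  have h1 : ∑ x ∈ s, (B x).ncard = (s.biUnion fun x => (B x).toFinset).card := by
    rw [Finset.card_biUnion]
    · refine Finset.sum_congr rfl fun x _ => ?_
      rw [Set.ncard_eq_toFinset_card']
    · intro x _ y _ hxy
      show Disjoint (B x).toFinset (B y).toFinset
      rw [Set.disjoint_toFinset]
      exact hd x y hxy
  rw [h1]
  have := Finset.card_le_univ (s.biUnion fun x => (B x).toFinset)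
  simpa using this

/-- The key step: an obstruction of a host has few edges at the large branch sets. -/
theorem mn_step {n m a T R g : ℕ} (hR : 1 ≤ R) (hTR : n < T ^ R) (ha : a + 2 * g = m)
    (H : FinGraph) (hH : ¬ Embeds H.2 g) (G : SimpleGraph (Fin n)) (hm : Nat.card G.edgeSet = m)
    (h : IsMinor H.2 G) :
    Nat.card G.edgeSet = m ∧
      m ≤ Nat.card H.2.edgeSet + a ∧
      ∃ B : Fin H.1 → Set (Fin n), (∀ x, (B x).Nonempty) ∧
        (∀ x y, x ≠ y → Disjoint (B x) (B y)) ∧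
        (∀ x y, H.2.Adj x y → ∃ u ∈ B x, ∃ v ∈ B y, G.Adj u v) ∧
        {e | e ∈ H.2.edgeSet ∧ ∃ x ∈ e, T < (B x).ncard}.ncard ≤ 2 * n + 4 * R * a := by
  classical
  obtain ⟨hn, hE, -⟩ := exists_obs_le h
  rw [hm] at hE
  have h0 : 2 * g < Nat.card H.2.edgeSet := by
    obtain ⟨σ, hσ, -⟩ := exists_rotation H.2 0 (fun i => i.elim0) (fun i => i.elim0)
      (fun i => i.elim0) (fun i => i.elim0)
    have := faces_lt H.2 g hH σ hσ
    omega
  obtain ⟨B, hc, hd, he⟩ := h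
  refine ⟨hm, by omega, B, fun x => ?_, hd, he, ?_⟩
  · obtain ⟨y⟩ := (hc x).nonempty
    exact ⟨y.1, y.2⟩
  · by_contra hcon
    push Not at hcon
    let X : Set (Fin H.1) := {x | T < (B x).ncard}
    have hX : X.ncard * T ≤ n := by
      rw [Set.ncard_eq_toFinset_card']
      have h1 : X.toFinset.card * T ≤ ∑ x ∈ X.toFinset, (B x).ncard := by
        rw [← smul_eq_mul]
        refine Finset.card_nsmul_le_sum _ _ _ fun x hx => ?_
        have : x ∈ X := by simpa using hx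
        exact le_of_lt this
      exact h1.trans (mn_sum_le B hd _)
    obtain ⟨b, C, hC, hdj⟩ := many_cycles H.2 X n T R a (by simpa using hn) hX hTR hR hcon.le
    obtain ⟨σ, hσ, hf⟩ := exists_rotation H.2 a b C hC hdj
    have := faces_lt H.2 g hH σ hσ
    omega

theorem mn_isMinor_iso {W W' V : Type} {H : SimpleGraph W} {H' : SimpleGraph W'}
    {G : SimpleGraph V} (e : H' ≃g H) (h : IsMinor H G) : IsMinor H' G :=
  exists_obs_trans (exists_obs_of_iso e) h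

theorem mn_count (R M : ℕ) (hR : 1 ≤ R) (hM : 4 ≤ M) : ∃ N₀ : ℕ, ∀ n ≥ N₀, ∀ g T : ℕ,
    2 * g ≤ M * n → 2 * g < (M - 3) * n → 1 ≤ T → n < T ^ R → (ObsSet g).Finite →
      ((n : ℝ) ^ 2 / 16) ^ (M * n) ≤ ((M * n).factorial : ℝ) * (((ObsSet g).ncard : ℝ) *
          (((n : ℝ) + 1) ^ n * ((n : ℝ) ^ 2) ^ (2 * n + 4 * R * (M * n - 2 * g)) *
            ((T : ℝ) ^ 2) ^ (M * n) * ((n : ℝ) ^ 2 + 1) ^ (M * n - 2 * g))) := by
  classical
  obtain ⟨n₀, hn₀⟩ := host_count M (M - 1) (by omega)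
  refine ⟨max n₀ 1, fun n hn g T hg1 hg2 hT hTR hfin => ?_⟩
  have hn1 : 1 ≤ n := le_trans (le_max_right _ _) hn
  have hcount := hn₀ n (le_trans (le_max_left _ _) hn) (M * n) le_rfl
  set m := M * n with hm
  set a := m - 2 * g with ha
  set Hs : Set (SimpleGraph (Fin n)) := {G : SimpleGraph (Fin n) | Nat.card G.edgeSet = m ∧
        ∀ (v : Fin n) (c : G.Walk v v), c.IsCycle → M - 1 < c.length} with hHs
  have hobs : ∀ G ∈ Hs, ∃ q ∈ ObsSet g, ¬ Embeds (Quotient.out q).2 g ∧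
      IsMinor (Quotient.out q).2 G := by
    rintro G ⟨hG1, hG2⟩
    have hne : ¬ Embeds G g := by
      refine not_embeds_of_girth G (M - 1) g hG2 ?_
      have hM1 : M - 1 + 1 = M := by omega
      rw [hM1, hG1]
      have hVn : Nat.card (Fin n) = n := by simp
      rw [hVn]
      have h1 : n + 2 * g + 2 * n < M * n := by
        have : M * n = (M - 3) * n + 3 * n := by
          rw [← Nat.add_mul]; congr 1; omega
        omega
      calc M * (n + 2 * g) + 2 * m = M * (n + 2 * g + 2 * n) := by rw [hm]; ring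
        _ < M * m := by
          apply Nat.mul_lt_mul_of_pos_left h1 (by omega)
    obtain ⟨H, hH, hHG⟩ := exists_obs G g hne
    refine ⟨Quotient.mk isoSetoid H, ⟨H, hH, rfl⟩, ?_⟩
    obtain ⟨e⟩ : Nonempty ((Quotient.out (Quotient.mk isoSetoid H)).2 ≃g H.2) :=
      Quotient.exact (Quotient.out_eq (Quotient.mk isoSetoid H))
    refine ⟨fun h => hH.1 (exists_obs_embeds e h), mn_isMinor_iso e hHG⟩
  choose! q hq1 hq2 hq3 using hobs
  have hbound : ∀ c : Quotient isoSetoid, {G | G ∈ Hs ∧ q G = c}.ncard ≤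
      (n + 1) ^ n * (n ^ 2) ^ (2 * n + 4 * R * a) * (T ^ 2) ^ m * (n ^ 2 + 1) ^ a := by
    intro c
    refine le_trans (Set.ncard_le_ncard ?_ (Set.toFinite _))
      (encode_count n m a (2 * n + 4 * R * a) T hn1 hT (Quotient.out c))
    rintro G ⟨hG, rfl⟩
    exact mn_step hR hTR (by omega) _ (hq2 G hG) G hG.1 (hq3 G hG)
  have htot : Hs.ncard ≤ (ObsSet g).ncard *
      ((n + 1) ^ n * (n ^ 2) ^ (2 * n + 4 * R * a) * (T ^ 2) ^ m * (n ^ 2 + 1) ^ a) := by
    have hsub : Hs = ⋃ c ∈ hfin.toFinset, {G | G ∈ Hs ∧ q G = c} := by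
      ext G
      simp only [Set.mem_iUnion, Set.mem_ofPred_eq]
      constructor
      · intro hG
        exact ⟨q G, by simpa using hq1 G hG, hG, rfl⟩
      · rintro ⟨c, _, hG, _⟩
        exact hG
    have h2 : Hs.ncard ≤ ∑ c ∈ hfin.toFinset, {G | G ∈ Hs ∧ q G = c}.ncard := by
      have h3 : Hs.ncard = (⋃ c ∈ hfin.toFinset, {G | G ∈ Hs ∧ q G = c}).ncard := by
        rw [← hsub]
      rw [h3]
      exact Finset.set_ncard_biUnion_le _ _
    refine h2.trans ?_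
    refine (Finset.sum_le_card_nsmul _ _ _ fun c _ => hbound c).trans ?_
    rw [smul_eq_mul, Set.ncard_eq_toFinset_card _ hfin]
  refine hcount.trans ?_
  apply mul_le_mul_of_nonneg_left _ (by positivity)
  exact_mod_cast htot

/-- A power of `⌊x^{1/R}⌋ + 1`. -/
theorem mn_T (n R : ℕ) (hn : 1 ≤ n) (hR : 1 ≤ R) : ∃ T : ℕ, 1 ≤ T ∧ n < T ^ R ∧
    (T : ℝ) ≤ 2 * (n : ℝ) ^ ((1 : ℝ) / R) := by
  have hR0 : (0 : ℝ) < R := by exact_mod_cast hR
  have hn1 : (1 : ℝ) ≤ n := by exact_mod_cast hn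
  have h1 : (1 : ℝ) ≤ (n : ℝ) ^ ((1 : ℝ) / R) := Real.one_le_rpow hn1 (by positivity)
  refine ⟨⌊(n : ℝ) ^ ((1 : ℝ) / R)⌋₊ + 1, by omega, ?_, ?_⟩
  · have h2 : (n : ℝ) ^ ((1 : ℝ) / R) < (⌊(n : ℝ) ^ ((1 : ℝ) / R)⌋₊ + 1 : ℕ) := by
      push_cast
      exact Nat.lt_floor_add_one _
    have h3 : ((n : ℝ) ^ ((1 : ℝ) / R)) ^ R = n := by
      rw [← Real.rpow_natCast, ← Real.rpow_mul (by positivity)]
      rw [one_div, inv_mul_cancel₀ hR0.ne', Real.rpow_one]
    have h4 : (n : ℝ) < ((⌊(n : ℝ) ^ ((1 : ℝ) / R)⌋₊ + 1 : ℕ) : ℝ) ^ R := by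
      calc (n : ℝ) = ((n : ℝ) ^ ((1 : ℝ) / R)) ^ R := h3.symm
        _ < _ := pow_lt_pow_left₀ h2 (by positivity) (by omega)
    exact_mod_cast h4
  · have h2 := Nat.floor_le (show (0 : ℝ) ≤ (n : ℝ) ^ ((1 : ℝ) / R) by positivity)
    push_cast
    linarith

/-- L8 -/
theorem main (ε : ℝ) (hε : 0 < ε) : ∃ g₀ : ℕ, ∀ g : ℕ, g₀ ≤ g →
    ∃ k : ℕ, (g : ℝ) ^ ((2 - ε) * g) ≤ k ∧ (k : ℕ∞) ≤ N g := by
  obtain ⟨R, M, hR, hM, hpar⟩ := params (min ε 1) (lt_min hε one_pos) (min_le_right _ _)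
  obtain ⟨N₀, hN₀⟩ := mn_count R M hR hM
  obtain ⟨g₀, hg₀⟩ := hpar (max N₀ 1)
  refine ⟨max g₀ 1, fun g hg => ?_⟩
  have hg1 : 1 ≤ g := le_trans (le_max_right _ _) hg
  obtain ⟨h1, h2, h3, h4, h5⟩ := hg₀ g (le_trans (le_max_left _ _) hg) _ rfl
  set n := 2 * g / (M - 3) + 1 with hn
  by_cases hfin : (ObsSet g).Finite
  · obtain ⟨T, hT1, hT2, hT3⟩ := mn_T n R (le_trans (le_max_right _ _) h1) hR
    refine ⟨(ObsSet g).ncard, ?_, ?_⟩
    · have h6 := h5 (ObsSet g).ncard T hT1 hT3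
        (hN₀ n (le_trans (le_max_left _ _) h1) g T h2 h3 hT1 hT2 hfin)
      refine le_trans (Real.rpow_le_rpow_of_exponent_le (by exact_mod_cast hg1) ?_) h6
      apply mul_le_mul_of_nonneg_right _ (by positivity)
      have := min_le_left ε 1
      linarith
    · unfold N
      rw [← hfin.cast_ncard_eq]
  · obtain ⟨k, hk⟩ := exists_nat_ge ((g : ℝ) ^ ((2 - ε) * g))
    refine ⟨k, hk, ?_⟩
    unfold N
    rw [Set.Infinite.encard_eq hfin]
    exact le_top

end Pool.Agent.Helper226_Obs
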